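import Pool.Agent.Q61.AD.Stm

/-!
Project AD (helper61), helper222: elementary facts about the waves.
-/

set_option autoImplicit false

namespace Pool.Agent.Q222.AD

open MeasureTheory Set
open Pool.Agent.Q61.AD

theorem pm_cases (n : ℤ) : pm n = 1 ∨ pm n = -1 := by
  unfold pm
  split_ifs
  · left; rfl
  · right; rfl

theorem pm_sq (n : ℤ) : pm n ^ 2 = 1 := by
  rcases pm_cases n with h | h <;> rw [h] <;> norm_num

theorem pm_mul_self (n : ℤ) : pm n * pm n = 1 := by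
  rcases pm_cases n with h | h <;> rw [h] <;> norm_num

theorem abs_pm (n : ℤ) : |pm n| = 1 := by
  rcases pm_cases n with h | h <;> rw [h] <;> norm_num

theorem pm_add_one (n : ℤ) : pm (n + 1) = - pm n := by
  unfold pm
  by_cases h : Even n
  · rw [if_pos h, if_neg]
    rw [Int.not_even_iff_odd]
    exact h.add_one
  · rw [if_neg h, if_pos, neg_neg]
    rw [Int.not_even_iff_odd] at h
    exact h.add_one

theorem pm_sub_one (n : ℤ) : pm (n - 1) = - pm n := by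
  have := pm_add_one (n - 1)
  rw [sub_add_cancel] at this
  rw [this, neg_neg]

theorem pm_add (m n : ℤ) : pm (m + n) = pm m * pm n := by
  unfold pm
  by_cases h1 : Even m <;> by_cases h2 : Even n
  · rw [if_pos h1, if_pos h2, if_pos (h1.add h2)]; norm_num
  · rw [if_pos h1, if_neg h2, if_neg]
    · norm_num
    · rw [Int.not_even_iff_odd] at h2 ⊢
      exact h1.add_odd h2
  · rw [if_neg h1, if_pos h2, if_neg]
    · norm_num
    · rw [Int.not_even_iff_odd] at h1 ⊢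
      exact h1.add_even h2
  · rw [if_neg h1, if_neg h2, if_pos]
    · norm_num
    · rw [Int.not_even_iff_odd] at h1 h2
      exact h1.add_odd h2

theorem pm_even {n : ℤ} (h : Even n) : pm n = 1 := by
  unfold pm
  rw [if_pos h]

theorem chi_cases (n : ℤ) : chi n = 0 ∨ chi n = 1 := by
  unfold chi
  split_ifs
  · right; rfl
  · left; rfl

theorem sgn_sq (n : ℤ) : (1 - 2 * chi n) ^ 2 = 1 := by
  rcases chi_cases n with h | h <;> rw [h] <;> norm_num

theorem abs_sgn (n : ℤ) : |1 - 2 * chi n| = 1 := by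
  rcases chi_cases n with h | h <;> rw [h] <;> norm_num

theorem chi_add_four (n k : ℤ) : chi (n + 4 * k) = chi n := by
  unfold chi
  have : (n + 4 * k) % 4 = n % 4 := by omega
  rw [this]

theorem chi_sub_two (n : ℤ) : chi (n - 2) = 1 - chi n := by
  unfold chi
  by_cases h : n % 4 = 1 ∨ n % 4 = 2
  · rw [if_pos h, if_neg (by omega)]; norm_num
  · rw [if_neg h, if_pos (by omega)]; norm_num

/-- `(1 - 2 χ n) (-1)^n = (-1)^(n/2)` -/
theorem sgn_pm (n : ℤ) : (1 - 2 * chi n) * pm n = pm (n / 2) := by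
  have h4 : n % 4 = 0 ∨ n % 4 = 1 ∨ n % 4 = 2 ∨ n % 4 = 3 := by omega
  unfold chi pm
  rcases h4 with h | h | h | h
  · rw [if_neg (by omega), if_pos (Int.even_iff.2 (by omega)), if_pos (Int.even_iff.2 (by omega))]; norm_num
  · rw [if_pos (by omega), if_neg (by rw [Int.even_iff]; omega), if_pos (Int.even_iff.2 (by omega))]; norm_num
  · rw [if_pos (by omega), if_pos (Int.even_iff.2 (by omega)), if_neg (by rw [Int.even_iff]; omega)]; norm_num
  · rw [if_neg (by omega), if_neg (by rw [Int.even_iff]; omega), if_neg (by rw [Int.even_iff]; omega)]; norm_num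

theorem dZ_nonneg (x : ℝ) : 0 ≤ dZ x := abs_nonneg _

theorem dZ_le (x : ℝ) (n : ℤ) : dZ x ≤ |x - n| := round_le x n

theorem dZ_add_int (x : ℝ) (n : ℤ) : dZ (x + n) = dZ x := by
  unfold dZ
  rw [round_add_intCast]
  push_cast
  congr 1
  ring

theorem dZ_int (n : ℤ) : dZ (n : ℝ) = 0 := by
  unfold dZ
  rw [round_intCast]
  simp

theorem dZ_sub (x y : ℝ) : |dZ x - dZ y| ≤ |x - y| := by
  have key : ∀ x y : ℝ, dZ x - dZ y ≤ |x - y| := by
    intro x y
    have h1 := dZ_le x (round y)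
    have h2 : |x - (round y : ℝ)| ≤ |x - y| + |y - (round y : ℝ)| := abs_sub_le _ _ _
    have h3 : dZ y = |y - (round y : ℝ)| := rfl
    linarith
  rw [abs_le]
  constructor
  · have := key y x
    rw [abs_sub_comm] at this
    linarith
  · exact key x y

theorem mn_bounds {δ : ℝ} (hδ : 0 < δ) (x : ℝ) : 0 ≤ min 1 (dZ x / δ) ∧ min 1 (dZ x / δ) ≤ 1 ∧ min 1 (dZ x / δ) ≤ dZ x / δ :=
  ⟨le_min zero_le_one (div_nonneg (dZ_nonneg x) hδ.le), min_le_left _ _, min_le_right _ _⟩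

theorem abs_wav {δ : ℝ} (hδ : 0 < δ) (x : ℝ) : |wav δ x| ≤ 1 ∧ |wav δ x| ≤ dZ x / δ := by
  obtain ⟨h1, h2, h3⟩ := mn_bounds hδ x
  unfold wav
  rw [abs_mul, abs_pm, one_mul, abs_of_nonneg h1]
  exact ⟨h2, h3⟩

theorem diff_floor {δ : ℝ} (hδ : 0 < δ) {x y : ℝ} (h : ⌊x⌋ ≠ ⌊y⌋) : |wav δ x| + |wav δ y| ≤ |x - y| / δ := by
  have key : ∀ x y : ℝ, ⌊x⌋ < ⌊y⌋ → |wav δ x| + |wav δ y| ≤ |x - y| / δ := by
    intro x y h
    have h1 := (abs_wav hδ x).2
    have h2 := (abs_wav hδ y).2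
    have h3 := dZ_le x ⌊y⌋
    have h4 := dZ_le y ⌊y⌋
    have h5 : x < (⌊y⌋ : ℝ) := Int.floor_lt.1 h
    have h6 : (⌊y⌋ : ℝ) ≤ y := Int.floor_le y
    rw [abs_of_nonpos (by linarith)] at h3
    rw [abs_of_nonneg (by linarith)] at h4
    rw [abs_of_nonpos (by linarith : x - y ≤ 0)]
    calc |wav δ x| + |wav δ y| ≤ dZ x / δ + dZ y / δ := add_le_add h1 h2
      _ = (dZ x + dZ y) / δ := by ring
      _ ≤ _ := by
        apply div_le_div_of_nonneg_right _ hδ.le
        linarith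
  rcases lt_or_gt_of_ne h with h | h
  · exact key x y h
  · have := key y x h
    rw [abs_sub_comm, add_comm]
    exact this

theorem min_lip {δ : ℝ} (hδ : 0 < δ) (x y : ℝ) : |min 1 (dZ x / δ) - min 1 (dZ y / δ)| ≤ |x - y| / δ := by
  have h1 := abs_min_sub_min_le_max 1 (dZ x / δ) 1 (dZ y / δ)
  rw [sub_self, abs_zero, max_eq_right (abs_nonneg _)] at h1
  refine h1.trans ?_
  rw [← sub_div, abs_div, abs_of_pos hδ]
  exact div_le_div_of_nonneg_right (dZ_sub x y) hδ.le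

/-- a wave with signs depending on the floor is Lipschitz -/
theorem sgn_wav_lip {δ : ℝ} (hδ : 0 < δ) (σ : ℤ → ℝ) (hσ : ∀ n, |σ n| ≤ 1) (x y : ℝ) :
    |σ ⌊x⌋ * wav δ x - σ ⌊y⌋ * wav δ y| ≤ |x - y| / δ := by
  by_cases h : ⌊x⌋ = ⌊y⌋
  · unfold wav
    rw [h]
    have e : σ ⌊y⌋ * (pm ⌊y⌋ * min 1 (dZ x / δ)) - σ ⌊y⌋ * (pm ⌊y⌋ * min 1 (dZ y / δ)) =
        σ ⌊y⌋ * (pm ⌊y⌋ * (min 1 (dZ x / δ) - min 1 (dZ y / δ))) := by ring
    rw [e, abs_mul, abs_mul, abs_pm, one_mul]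
    calc |σ ⌊y⌋| * |min 1 (dZ x / δ) - min 1 (dZ y / δ)| ≤ 1 * |min 1 (dZ x / δ) - min 1 (dZ y / δ)| :=
        mul_le_mul_of_nonneg_right (hσ _) (abs_nonneg _)
      _ = _ := one_mul _
      _ ≤ _ := min_lip hδ x y
  · have h1 := diff_floor hδ h
    refine (abs_sub _ _).trans (le_trans ?_ h1)
    rw [abs_mul, abs_mul]
    apply add_le_add
    · calc |σ ⌊x⌋| * |wav δ x| ≤ 1 * |wav δ x| := mul_le_mul_of_nonneg_right (hσ _) (abs_nonneg _)
        _ = _ := one_mul _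
    · calc |σ ⌊y⌋| * |wav δ y| ≤ 1 * |wav δ y| := mul_le_mul_of_nonneg_right (hσ _) (abs_nonneg _)
        _ = _ := one_mul _

theorem wav_lip {δ : ℝ} (hδ : 0 < δ) (x y : ℝ) : |wav δ x - wav δ y| ≤ |x - y| / δ := by
  have := sgn_wav_lip hδ (fun _ => 1) (by simp) x y
  simpa using this

theorem wav_sub_one (δ x : ℝ) : wav δ (x - 1) = - wav δ x := by
  unfold wav
  have h1 : ⌊x - 1⌋ = ⌊x⌋ - 1 := Int.floor_sub_one x
  have h2 : dZ (x - 1) = dZ x := by
    have := dZ_add_int x (-1)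
    push_cast at this
    rw [← sub_eq_add_neg] at this
    exact this
  rw [h1, h2, pm_sub_one]
  ring

theorem wav_sub_two (δ x : ℝ) : wav δ (x - 2) = wav δ x := by
  have : x - 2 = x - 1 - 1 := by ring
  rw [this, wav_sub_one, wav_sub_one, neg_neg]

theorem wav_add_even (δ x : ℝ) {n : ℤ} (hn : Even n) : wav δ (x + n) = wav δ x := by
  unfold wav
  rw [Int.floor_add_intCast, dZ_add_int, pm_add, pm_even hn, mul_one]

end Pool.Agent.Q222.AD
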