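import Pool.Agent.Q222.AD.P4

/-!
Project AD (helper61), helper222: AD-34 (`S_COR`).
-/

set_option autoImplicit false

namespace Pool.Agent.Q222.AD

open MeasureTheory Set
open Pool.Agent.Q61.AD

theorem intInt {g : ℝ → ℝ} (hg : Measurable g) {M : ℝ} (hM : ∀ x, |g x| ≤ M) (a b : ℝ) : IntervalIntegrable g volume a b := by
  rw [intervalIntegrable_iff]
  apply Measure.integrableOn_of_bounded (M := M) (by rw [uIoc]; rw [Real.volume_Ioc]; exact ENNReal.ofReal_ne_top) hg.aestronglyMeasurable
  exact Filter.Eventually.of_forall (fun x => by rw [Real.norm_eq_abs]; exact hM x)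

/-- scaling of a periodic function -/
theorem int_scaled (k : ℕ) {g : ℝ → ℝ} (hg : Measurable g) {M : ℝ} (hM : ∀ x, |g x| ≤ M) (hp : ∀ x, g (x + 1) = g x) :
    ∫ y in Ico (0 : ℝ) 1, g (2 ^ k * y) = ∫ y in (0 : ℝ)..1, g y := by
  rw [integral_Ico_eq_integral_Ioc, ← intervalIntegral.integral_of_le zero_le_one]
  have h2j : (0 : ℝ) < 2 ^ k := by positivity
  rw [intervalIntegral.integral_comp_mul_left g h2j.ne', mul_zero, mul_one]
  have hp' : Function.Periodic g 1 := hp
  have h1 := hp'.intervalIntegral_add_zsmul_eq (2 ^ k : ℤ) 0 (fun a b => intInt hg hM a b)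
  have e : (0 : ℝ) + (2 ^ k : ℤ) • (1 : ℝ) = 2 ^ k := by simp
  rw [e, zero_add] at h1
  rw [h1, smul_eq_mul, zsmul_eq_mul]
  push_cast
  rw [← mul_assoc, inv_mul_cancel₀ h2j.ne', one_mul]

/-- `|sin (π y)|` -/
noncomputable def asn (y : ℝ) : ℝ := pm ⌊y⌋ * Real.sin (Real.pi * y)

theorem sin_add_one (y : ℝ) : Real.sin (Real.pi * (y + 1)) = - Real.sin (Real.pi * y) := by
  rw [mul_add, mul_one, Real.sin_add_pi]

theorem int_asn (k : ℕ) : ∫ y in Ico (0 : ℝ) 1, asn (2 ^ k * y) = 2 / Real.pi := by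
  have hs : Continuous (fun y : ℝ => Real.sin (Real.pi * y)) := Real.continuous_sin.comp (continuous_const.mul continuous_id)
  have hm : Measurable asn := (measurable_pm.comp Int.measurable_floor).mul hs.measurable
  rw [int_scaled k hm (M := 1)]
  · have h1 : ∫ y in (0 : ℝ)..1, asn y = ∫ y in (0 : ℝ)..1, Real.sin (Real.pi * y) := by
      rw [intervalIntegral.integral_of_le zero_le_one, intervalIntegral.integral_of_le zero_le_one,
        ← integral_Ico_eq_integral_Ioc, ← integral_Ico_eq_integral_Ioc]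
      apply setIntegral_congr_fun measurableSet_Ico
      intro y hy
      have : ⌊y⌋ = 0 := by
        rw [Int.floor_eq_zero_iff]
        exact hy
      show pm ⌊y⌋ * Real.sin (Real.pi * y) = Real.sin (Real.pi * y)
      rw [this, pm_even (by decide), one_mul]
    rw [h1, intervalIntegral.integral_comp_mul_left Real.sin Real.pi_ne_zero, mul_zero, mul_one, integral_sin, smul_eq_mul]
    rw [Real.cos_zero, Real.cos_pi]
    field_simp
    norm_num
  · intro y
    unfold asn
    rw [abs_mul, abs_pm, one_mul]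
    exact Real.abs_sin_le_one _
  · intro y
    unfold asn
    rw [sin_add_one]
    have : ⌊y + 1⌋ = ⌊y⌋ + 1 := Int.floor_add_one y
    rw [this, pm_add_one]
    ring

theorem int_sinsq (k : ℕ) : ∫ y in Ico (0 : ℝ) 1, Real.sin (Real.pi * 2 ^ k * y) ^ 2 = 1 / 2 := by
  have hs : Continuous (fun y : ℝ => Real.sin (Real.pi * y) ^ 2) := (Real.continuous_sin.comp (continuous_const.mul continuous_id)).pow 2
  have e : ∀ y : ℝ, Real.sin (Real.pi * 2 ^ k * y) ^ 2 = (fun y : ℝ => Real.sin (Real.pi * y) ^ 2) (2 ^ k * y) := by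
    intro y
    show _ = Real.sin (Real.pi * (2 ^ k * y)) ^ 2
    rw [mul_assoc]
  simp only [e]
  rw [int_scaled k hs.measurable (M := 1)]
  · rw [intervalIntegral.integral_comp_mul_left (fun y => Real.sin y ^ 2) Real.pi_ne_zero, mul_zero, mul_one, integral_sin_sq, smul_eq_mul]
    rw [Real.sin_zero, Real.sin_pi]
    have := Real.pi_ne_zero
    field_simp
    ring
  · intro y
    rw [abs_of_nonneg (sq_nonneg _)]
    exact Real.sin_sq_le_one _
  · intro y
    rw [sin_add_one]
    ring

theorem measurable_phi (k : ℕ) : Measurable (phi k) := by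
  unfold phi
  have h1 : Continuous (fun x : P => Real.sin (Real.pi * 2 ^ k * x.1) * Real.sin (Real.pi * 2 ^ k * x.2)) :=
    (Real.continuous_sin.comp (continuous_const.mul continuous_fst)).mul (Real.continuous_sin.comp (continuous_const.mul continuous_snd))
  exact h1.measurable

theorem abs_phi (k : ℕ) (x : P) : |phi k x| ≤ 1 := by
  unfold phi
  rw [abs_mul]
  exact mul_le_one₀ (Real.abs_sin_le_one _) (abs_nonneg _) (Real.abs_sin_le_one _)

theorem t_COR : S_COR := by
  intro k hk
  have h1 : ∫ x in Q, chk k x * phi k x = (2 / Real.pi) ^ 2 := by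
    have e : ∀ x : P, chk k x * phi k x = asn (2 ^ k * x.1) * asn (2 ^ k * x.2) := by
      intro x
      rw [chk_eq]
      unfold phi asn
      rw [mul_assoc Real.pi, mul_assoc Real.pi]
      ring
    simp only [e]
    unfold Q
    rw [Measure.volume_eq_prod, setIntegral_prod_mul (fun x : ℝ => asn (2 ^ k * x)) (fun x : ℝ => asn (2 ^ k * x)), int_asn]
    ring
  have h2 : ∫ x in Q, phi k x ^ 2 = 1 / 4 := by
    have e : ∀ x : P, phi k x ^ 2 = Real.sin (Real.pi * 2 ^ k * x.1) ^ 2 * Real.sin (Real.pi * 2 ^ k * x.2) ^ 2 := by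
      intro x
      unfold phi
      ring
    simp only [e]
    unfold Q
    rw [Measure.volume_eq_prod, setIntegral_prod_mul (fun x : ℝ => Real.sin (Real.pi * 2 ^ k * x) ^ 2) (fun x : ℝ => Real.sin (Real.pi * 2 ^ k * x) ^ 2), int_sinsq]
    norm_num
  refine ⟨h1, h2, ?_⟩
  intro M w hw hle
  obtain ⟨w1, w2, w3⟩ := hw
  have hM : 0 ≤ M := (abs_nonneg _).trans (w3 (0, 0))
  have c1 := measurable_chk k
  have p1 := measurable_phi k
  have hi0 : IntegrableOn (fun x => chk k x * phi k x) Q := integrableOn_Q (M := 1) (c1.mul p1) (fun x => by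
    rw [abs_mul, abs_chk, one_mul]; exact abs_phi k x)
  have hi1 : IntegrableOn (fun x => w x * phi k x) Q := integrableOn_Q (M := M) (w1.mul p1) (fun x => by
    rw [abs_mul]
    calc |w x| * |phi k x| ≤ M * 1 := mul_le_mul (w3 x) (abs_phi k x) (abs_nonneg _) hM
      _ = M := mul_one _)
  have hi2 : IntegrableOn (fun x => phi k x ^ 2) Q := integrableOn_Q (M := 1) (p1.pow_const 2) (fun x => by
    rw [abs_of_nonneg (sq_nonneg _), ← sq_abs]
    exact pow_le_one₀ (abs_nonneg _) (abs_phi k x))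
  have hi3 : IntegrableOn (fun x => (w x - chk k x) ^ 2) Q := integrableOn_Q (M := (M + 1) ^ 2) ((w1.sub c1).pow_const 2) (fun x => by
    rw [abs_of_nonneg (sq_nonneg _), ← sq_abs]
    apply pow_le_pow_left₀ (abs_nonneg _)
    refine (abs_sub _ _).trans ?_
    rw [abs_chk]
    linarith [w3 x])
  have hi4 : IntegrableOn (fun x => 25 / 41 * (w x - chk k x) ^ 2) Q := hi3.const_mul _
  have hi5 : IntegrableOn (fun x => 41 / 100 * phi k x ^ 2) Q := hi2.const_mul _
  have hi6 : IntegrableOn (fun x => 25 / 41 * (w x - chk k x) ^ 2 + 41 / 100 * phi k x ^ 2) Q := hi4.add hi5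
  have hi7 : IntegrableOn (fun x => chk k x * phi k x - (25 / 41 * (w x - chk k x) ^ 2 + 41 / 100 * phi k x ^ 2)) Q := hi0.sub hi6
  have h3 : ∫ x in Q, (chk k x * phi k x - (25 / 41 * (w x - chk k x) ^ 2 + 41 / 100 * phi k x ^ 2)) ≤ ∫ x in Q, w x * phi k x := by
    apply setIntegral_mono_on hi7 hi1 measurableSet_Q
    intro x _
    show chk k x * phi k x - (25 / 41 * (w x - chk k x) ^ 2 + 41 / 100 * phi k x ^ 2) ≤ w x * phi k x
    have : 0 ≤ (25 / 41) * (w x - chk k x + 41 / 50 * phi k x) ^ 2 := by positivity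
    nlinarith
  rw [integral_sub hi0 hi6, integral_add hi4 hi5, integral_const_mul, integral_const_mul, h1, h2] at h3
  have h4 : (2 / 5 : ℝ) ≤ (2 / Real.pi) ^ 2 := by
    rw [div_pow, div_le_div_iff₀ (by norm_num) (by positivity)]
    have := Real.pi_lt_d2
    have h0 := Real.pi_pos
    nlinarith
  linarith

end Pool.Agent.Q222.AD
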