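import Pool.Agent.Q222.AD.P4

/-!
Project AD (helper61), helper222: AD-22 (`S_JMP`).
-/

set_option autoImplicit false

namespace Pool.Agent.Q222.AD

open MeasureTheory Set
open Pool.Agent.Q61.AD

theorem diff_x {Φ : ℝ → P → ℝ} (hΦ : Tst Φ) (t y : ℝ) : Differentiable ℝ (fun s : ℝ => Φ t (s, y)) := by
  have h1 : ContDiff ℝ (⊤ : ℕ∞) (fun s : ℝ => ((t, (s, y)) : ℝ × P)) := contDiff_const.prodMk (contDiff_id.prodMk contDiff_const)
  have h2 := hΦ.smooth.comp h1
  exact h2.differentiable (by simp)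

theorem mvt_x (hb : S_TBD) {R C : ℝ} {Φ : ℝ → P → ℝ} (h : TB R C Φ) {t : ℝ} (h0 : 0 ≤ t) (h1 : t ≤ R) (x y a : ℝ) :
    |Φ t (x + a, y) - Φ t (x, y)| ≤ C * |a| := by
  have h2 := Convex.norm_image_sub_le_of_norm_deriv_le (f := fun s : ℝ => Φ t (s, y)) (C := C) (s := Set.univ) (x := x) (y := x + a)
    (fun s _ => (diff_x h.toTst t y) s) (fun s _ => ((hb R C Φ h).2 t (s, y) h0 h1).2.2.1) convex_univ (mem_univ _) (mem_univ _)
  have e : x + a - x = a := by ring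
  rw [e] at h2
  exact h2

theorem chk_small (hb : S_TBD) {R C : ℝ} {Φ : ℝ → P → ℝ} (h : TB R C Φ) {t : ℝ} (h0 : 0 ≤ t) (h1 : t ≤ R) (j : ℕ) (hj : 1 ≤ j) :
    |∫ x in Q, chk j x * Φ t x| ≤ 1 / 2 ^ j * C := by
  have hC : 0 ≤ C := (abs_nonneg _).trans ((hb R C Φ h).2 t (0, 0) h0 h1).1
  have hcont : Continuous (fun q : ℝ × P => Φ q.1 q.2) := (hb R C Φ h).1.1
  have hm : Measurable (Φ t) := (hcont.comp (continuous_const.prodMk continuous_id)).measurable
  have hbd : ∀ x, |Φ t x| ≤ C := fun x => ((hb R C Φ h).2 t x h0 h1).1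
  have hper := h.toTst.per t
  obtain ⟨c1, c2, c3⟩ := bd_chk j hj
  have hpb : ∀ x, |chk j x * Φ t x| ≤ C := by
    intro x
    rw [abs_mul, abs_chk, one_mul]
    exact hbd x
  have hB : Bd C (fun x => chk j x * Φ t x) := by
    refine ⟨c1.mul hm, fun x y => ?_, hpb⟩
    show chk j (x + 1, y) * Φ t (x + 1, y) = chk j (x, y) * Φ t (x, y) ∧ chk j (x, y + 1) * Φ t (x, y + 1) = chk j (x, y) * Φ t (x, y)
    rw [(c2 x y).1, (c2 x y).2, (hper x y).1, (hper x y).2]
    exact ⟨rfl, rfl⟩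
  have hs := shear1 hB (c := fun _ => 1 / 2 ^ j) measurable_const
  have e1 : ∀ x : P, chk j (x.1 + 1 / 2 ^ j, x.2) = - chk j x := by
    intro x
    have e : (2 : ℝ) ^ j * (1 / 2 ^ j) = ((1 : ℤ) : ℝ) := by
      have : (2 : ℝ) ^ j ≠ 0 := by positivity
      field_simp
      norm_num
    rw [chk_add1 j e]
    have : pm 1 = -1 := by
      unfold pm
      rw [if_neg (by decide)]
    rw [this]
    ring
  have hm2 : Measurable (fun x : P => Φ t (x.1 + 1 / 2 ^ j, x.2)) :=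
    hm.comp ((measurable_fst.add_const _).prodMk measurable_snd)
  have hi1 : IntegrableOn (fun x => chk j x * Φ t x) Q := integrableOn_Q hB.1 hpb
  have hi2 : IntegrableOn (fun x : P => chk j x * Φ t (x.1 + 1 / 2 ^ j, x.2)) Q := integrableOn_Q (c1.mul hm2) (fun x => by
    rw [abs_mul, abs_chk, one_mul]
    exact hbd _)
  have e2 : ∫ x in Q, chk j x * Φ t x = - ∫ x in Q, chk j x * Φ t (x.1 + 1 / 2 ^ j, x.2) := by
    rw [← hs, ← integral_neg]
    congr 1
    funext x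
    show chk j (x.1 + 1 / 2 ^ j, x.2) * Φ t (x.1 + 1 / 2 ^ j, x.2) = _
    rw [e1]
    ring
  have e3 : 2 * ∫ x in Q, chk j x * Φ t x = ∫ x in Q, chk j x * (Φ t x - Φ t (x.1 + 1 / 2 ^ j, x.2)) := by
    have : ∫ x in Q, chk j x * (Φ t x - Φ t (x.1 + 1 / 2 ^ j, x.2)) = (∫ x in Q, chk j x * Φ t x) - ∫ x in Q, chk j x * Φ t (x.1 + 1 / 2 ^ j, x.2) := by
      rw [← integral_sub hi1 hi2]
      congr 1
      funext x
      ring
    rw [this]
    linarith
  have h3 : ‖∫ x in Q, chk j x * (Φ t x - Φ t (x.1 + 1 / 2 ^ j, x.2))‖ ≤ (C * (1 / 2 ^ j)) * volume.real Q := by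
    apply norm_setIntegral_le_of_norm_le_const (by rw [volume_Q]; exact ENNReal.one_lt_top)
    intro x _
    rw [Real.norm_eq_abs, abs_mul, abs_chk, one_mul, abs_sub_comm]
    have := mvt_x hb h h0 h1 x.1 x.2 (1 / 2 ^ j)
    rwa [abs_of_nonneg (by positivity : (0 : ℝ) ≤ 1 / 2 ^ j)] at this
  have hv : volume.real Q = 1 := by
    rw [measureReal_def, volume_Q]
    simp
  rw [hv, mul_one, ← e3, Real.norm_eq_abs, abs_mul, abs_of_pos (by norm_num : (0 : ℝ) < 2)] at h3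
  have h4 : 0 ≤ C * (1 / 2 ^ j) := by positivity
  have h5 : 0 ≤ |∫ x in Q, chk j x * Φ t x| := abs_nonneg _
  linarith

theorem t_JMP (hb : S_TBD) : S_JMP := by
  intro j R M c b f u hj hc hcR hu1 hu2 hf hg
  refine ⟨hu1, hu2, hf, hg, ?_⟩
  intro Φ C h
  rw [intervalIntegral.integral_same, sub_zero]
  have hC : 0 ≤ C := (abs_nonneg _).trans ((hb R C Φ h).2 c (0, 0) hc hcR).1
  have hM : 0 ≤ M := (abs_nonneg _).trans (hf.2.2 (0, 0))
  have hcont : Continuous (fun q : ℝ × P => Φ q.1 q.2) := (hb R C Φ h).1.1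
  have hm : Measurable (Φ c) := (hcont.comp (continuous_const.prodMk continuous_id)).measurable
  have hbd : ∀ x, |Φ c x| ≤ C := fun x => ((hb R C Φ h).2 c x hc hcR).1
  have hi1 : IntegrableOn (fun x => f x * Φ c x) Q := integrableOn_Q (M := M * C) (hf.1.mul hm) (fun x => by
    rw [abs_mul]
    exact mul_le_mul (hf.2.2 x) (hbd x) (abs_nonneg _) hM)
  have hi2 : IntegrableOn (fun x => chk j x * Φ c x) Q := integrableOn_Q (M := C) ((measurable_chk j).mul hm) (fun x => by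
    rw [abs_mul, abs_chk, one_mul]
    exact hbd x)
  have e : (∫ x in Q, (f x + chk j x) * Φ c x) - ∫ x in Q, f x * Φ c x = ∫ x in Q, chk j x * Φ c x := by
    have : ∫ x in Q, (f x + chk j x) * Φ c x = (∫ x in Q, f x * Φ c x) + ∫ x in Q, chk j x * Φ c x := by
      rw [← integral_add hi1 hi2]
      congr 1
      funext x
      ring
    rw [this]
    ring
  rw [e]
  exact chk_small hb h hc hcR j hj

end Pool.Agent.Q222.AD
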