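import Pool.Agent.Q222.AD.Cor

/-!
Project AD (helper61), helper222: AD-36 (`S_NP`).
-/

set_option autoImplicit false

namespace Pool.Agent.Q222.AD

open MeasureTheory Set Filter Topology
open Pool.Agent.Q61.AD

/-- the derivative of the pattern -/
noncomputable def psx (k : ℕ) (x : P) : ℝ := Real.pi * 2 ^ k * (Real.cos (Real.pi * 2 ^ k * x.1) * Real.sin (Real.pi * 2 ^ k * x.2))

theorem dx_psx (k : ℕ) (x : P) : dx (psx k) x = -(Real.pi * 2 ^ k) ^ 2 * phi k x := by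
  unfold dx psx phi
  have h1 : HasDerivAt (fun s : ℝ => Real.pi * 2 ^ k * (Real.cos (Real.pi * 2 ^ k * s) * Real.sin (Real.pi * 2 ^ k * x.2)))
      (Real.pi * 2 ^ k * ((-Real.sin (Real.pi * 2 ^ k * x.1) * (Real.pi * 2 ^ k * 1)) * Real.sin (Real.pi * 2 ^ k * x.2))) x.1 := by
    have h2 : HasDerivAt (fun s : ℝ => Real.pi * 2 ^ k * s) (Real.pi * 2 ^ k * 1) x.1 := (hasDerivAt_id x.1).const_mul _
    exact ((h2.cos).mul_const _).const_mul _
  rw [h1.deriv]
  ring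

theorem contDiff_psx (k : ℕ) : ContDiff ℝ (⊤ : ℕ∞) (psx k) := by
  unfold psx
  have h1 : ContDiff ℝ (⊤ : ℕ∞) (fun x : P => Real.pi * 2 ^ k * x.1) := contDiff_const.mul contDiff_fst
  have h2 : ContDiff ℝ (⊤ : ℕ∞) (fun x : P => Real.pi * 2 ^ k * x.2) := contDiff_const.mul contDiff_snd
  exact contDiff_const.mul ((Real.contDiff_cos.comp h1).mul (Real.contDiff_sin.comp h2))

theorem ang (k : ℕ) (hk : 1 ≤ k) (x : ℝ) : Real.pi * 2 ^ k * (x + 1) = Real.pi * 2 ^ k * x + ((2 ^ (k - 1) : ℕ) : ℝ) * (2 * Real.pi) := by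
  obtain ⟨m, rfl⟩ := Nat.exists_eq_add_of_le hk
  rw [Nat.add_sub_cancel_left]
  push_cast
  ring

theorem per_psx (k : ℕ) (hk : 1 ≤ k) : Per (psx k) := by
  intro x y
  constructor
  · show Real.pi * 2 ^ k * (Real.cos (Real.pi * 2 ^ k * (x + 1)) * Real.sin (Real.pi * 2 ^ k * y)) = Real.pi * 2 ^ k * (Real.cos (Real.pi * 2 ^ k * x) * Real.sin (Real.pi * 2 ^ k * y))
    rw [ang k hk, Real.cos_add_nat_mul_two_pi]
  · show Real.pi * 2 ^ k * (Real.cos (Real.pi * 2 ^ k * x) * Real.sin (Real.pi * 2 ^ k * (y + 1))) = Real.pi * 2 ^ k * (Real.cos (Real.pi * 2 ^ k * x) * Real.sin (Real.pi * 2 ^ k * y))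
    rw [ang k hk, Real.sin_add_nat_mul_two_pi]

theorem measurable_psx (k : ℕ) : Measurable (psx k) := (contDiff_psx k).continuous.measurable

theorem abs_psx (k : ℕ) (x : P) : |psx k x| ≤ Real.pi * 2 ^ k := by
  unfold psx
  have hp := Real.pi_pos
  rw [abs_mul, abs_of_pos (by positivity)]
  apply mul_le_of_le_one_right (by positivity)
  rw [abs_mul]
  exact mul_le_one₀ (Real.abs_cos_le_one _) (abs_nonneg _) (Real.abs_sin_le_one _)

theorem int_psx_sq (k : ℕ) : ∫ x in Q, psx k x ^ 2 = (Real.pi * 2 ^ k) ^ 2 / 4 := by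
  have e : ∀ x : P, psx k x ^ 2 = ((Real.pi * 2 ^ k) ^ 2 * (1 - Real.sin (Real.pi * 2 ^ k * x.1) ^ 2)) * Real.sin (Real.pi * 2 ^ k * x.2) ^ 2 := by
    intro x
    unfold psx
    have := Real.cos_sq' (Real.pi * 2 ^ k * x.1)
    rw [← this]
    ring
  simp only [e]
  unfold Q
  rw [Measure.volume_eq_prod, setIntegral_prod_mul (fun x : ℝ => (Real.pi * 2 ^ k) ^ 2 * (1 - Real.sin (Real.pi * 2 ^ k * x) ^ 2)) (fun x : ℝ => Real.sin (Real.pi * 2 ^ k * x) ^ 2), int_sinsq,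
    integral_const_mul]
  have hc : Continuous (fun x : ℝ => Real.sin (Real.pi * 2 ^ k * x) ^ 2) := (Real.continuous_sin.comp (continuous_const.mul continuous_id)).pow 2
  rw [integral_sub (integrable_const _) (hc.integrableOn_Icc.mono_set Ico_subset_Icc_self), int_sinsq, setIntegral_const]
  simp only [smul_eq_mul, Real.volume_real_Ico_of_le zero_le_one, sub_zero, one_mul]
  ring

/-- the estimate at one time -/
theorem one_time (k : ℕ) (hk : 1 ≤ k) {w G₁ G₂ : P → ℝ} (hw : WGrad w G₁ G₂) (hG₁ : Measurable G₁) :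
    ENNReal.ofReal ((∫ x in Q, w x * phi k x) - 3 / 40) ≤
      ENNReal.ofReal (5 / (6 * (Real.pi * 2 ^ k) ^ 2)) * ∫⁻ x in Q, ENNReal.ofReal (G₁ x ^ 2 + G₂ x ^ 2) := by
  have hp := Real.pi_pos
  have hN : 0 < (Real.pi * 2 ^ k) ^ 2 := by positivity
  have hc0 : 0 < 5 / (6 * (Real.pi * 2 ^ k) ^ 2) := by positivity
  by_cases htop : ∫⁻ x in Q, ENNReal.ofReal (G₁ x ^ 2 + G₂ x ^ 2) = ⊤
  · rw [htop, ENNReal.mul_top]
    · exact le_top
    · rw [Ne, ENNReal.ofReal_eq_zero, not_le]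
      exact hc0
  · obtain ⟨I, hI⟩ : ∃ I : ℝ, I = (∫⁻ x in Q, ENNReal.ofReal (G₁ x ^ 2 + G₂ x ^ 2)).toReal := ⟨_, rfl⟩
    have hle : ∫⁻ x in Q, ENNReal.ofReal (G₁ x ^ 2) ≤ ∫⁻ x in Q, ENNReal.ofReal (G₁ x ^ 2 + G₂ x ^ 2) := by
      apply lintegral_mono
      intro x
      apply ENNReal.ofReal_le_ofReal
      have := sq_nonneg (G₂ x)
      linarith
    have hfin : ∫⁻ x in Q, ENNReal.ofReal (G₁ x ^ 2) ≠ ⊤ := ne_top_of_le_ne_top htop hle
    have hi2 : IntegrableOn (fun x => G₁ x ^ 2) Q := by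
      refine ⟨(hG₁.pow_const 2).aestronglyMeasurable, ?_⟩
      rw [hasFiniteIntegral_iff_ofReal (Eventually.of_forall (fun x => sq_nonneg _))]
      exact lt_top_iff_ne_top.2 hfin
    have hI2 : ∫ x in Q, G₁ x ^ 2 ≤ I := by
      rw [integral_eq_lintegral_of_nonneg_ae (Eventually.of_forall (fun x => sq_nonneg _)) (hG₁.pow_const 2).aestronglyMeasurable, hI]
      exact ENNReal.toReal_mono htop hle
    have hp2 : IntegrableOn (fun x => psx k x ^ 2) Q := integrableOn_Q (M := (Real.pi * 2 ^ k) ^ 2) ((measurable_psx k).pow_const 2) (fun x => by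
      rw [abs_of_nonneg (sq_nonneg _), ← sq_abs]
      exact pow_le_pow_left₀ (abs_nonneg _) (abs_psx k x) 2)
    have hi3 : IntegrableOn (fun x => 5 / 6 * G₁ x ^ 2) Q := hi2.const_mul _
    have hp3 : IntegrableOn (fun x => 3 / 10 * psx k x ^ 2) Q := hp2.const_mul _
    have hi4 : IntegrableOn (fun x => 5 / 6 * G₁ x ^ 2 + 3 / 10 * psx k x ^ 2) Q := hi3.add hp3
    have hi5 : IntegrableOn (fun x => G₁ x * psx k x) Q := by
      apply Integrable.mono' hi4 (hG₁.mul (measurable_psx k)).aestronglyMeasurable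
      apply Eventually.of_forall
      intro x
      show ‖G₁ x * psx k x‖ ≤ _
      rw [Real.norm_eq_abs, abs_le]
      constructor <;> nlinarith [sq_nonneg (5 * G₁ x + 3 * psx k x), sq_nonneg (5 * G₁ x - 3 * psx k x)]
    have h1 := (hw (psx k) (contDiff_psx k) (per_psx k hk)).1
    have h2 : ∫ x in Q, w x * dx (psx k) x = -((Real.pi * 2 ^ k) ^ 2 * ∫ x in Q, w x * phi k x) := by
      rw [← integral_const_mul, ← integral_neg]
      congr 1
      funext x
      rw [dx_psx]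
      ring
    rw [h2, neg_inj] at h1
    have h3 : ∫ x in Q, G₁ x * psx k x ≤ 5 / 6 * I + 3 / 10 * ((Real.pi * 2 ^ k) ^ 2 / 4) := by
      calc ∫ x in Q, G₁ x * psx k x ≤ ∫ x in Q, (5 / 6 * G₁ x ^ 2 + 3 / 10 * psx k x ^ 2) := by
            apply setIntegral_mono_on hi5 hi4 measurableSet_Q
            intro x _
            show G₁ x * psx k x ≤ 5 / 6 * G₁ x ^ 2 + 3 / 10 * psx k x ^ 2
            nlinarith [sq_nonneg (5 * G₁ x - 3 * psx k x)]
        _ = 5 / 6 * (∫ x in Q, G₁ x ^ 2) + 3 / 10 * ∫ x in Q, psx k x ^ 2 := by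
            rw [integral_add hi3 hp3, integral_const_mul, integral_const_mul]
        _ ≤ _ := by
            rw [int_psx_sq]
            linarith
    rw [← h1] at h3
    have h4 : (∫ x in Q, w x * phi k x) - 3 / 40 ≤ 5 / (6 * (Real.pi * 2 ^ k) ^ 2) * I := by
      have e : 5 / (6 * (Real.pi * 2 ^ k) ^ 2) * I = (5 / 6 * I) / (Real.pi * 2 ^ k) ^ 2 := by
        field_simp
      rw [e, le_div_iff₀ hN]
      nlinarith
    calc ENNReal.ofReal ((∫ x in Q, w x * phi k x) - 3 / 40) ≤ ENNReal.ofReal (5 / (6 * (Real.pi * 2 ^ k) ^ 2) * I) := ENNReal.ofReal_le_ofReal h4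
      _ = ENNReal.ofReal (5 / (6 * (Real.pi * 2 ^ k) ^ 2)) * ENNReal.ofReal I := ENNReal.ofReal_mul hc0.le
      _ = _ := by rw [hI, ENNReal.ofReal_toReal htop]

theorem ofReal_int_le {μ : Measure ℝ} {f : ℝ → ℝ} (hf : Integrable f μ) : ENNReal.ofReal (∫ t, f t ∂μ) ≤ ∫⁻ t, ENNReal.ofReal (f t) ∂μ := by
  have h1 := integral_eq_lintegral_pos_part_sub_lintegral_neg_part hf
  have h2 : ∫⁻ t, ENNReal.ofReal (f t) ∂μ ≠ ⊤ := by
    have := hf.2
    rw [hasFiniteIntegral_iff_norm] at this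
    refine ne_top_of_le_ne_top this.ne (lintegral_mono (fun t => ENNReal.ofReal_le_ofReal (le_abs_self _)))
  apply ENNReal.ofReal_le_of_le_toReal
  rw [h1]
  have := ENNReal.toReal_nonneg (a := ∫⁻ t, ENNReal.ofReal (-f t) ∂μ)
  linarith

theorem t_NP : S_NP := by
  intro R T u hR hT hTR hu hub hwin G₁ G₂ hG₁ hG₂ hgr
  have hp := Real.pi_pos
  obtain ⟨g, hg⟩ : ∃ g : ℝ → ENNReal, g = fun t => ∫⁻ x in Q, ENNReal.ofReal (G₁ t x ^ 2 + G₂ t x ^ 2) := ⟨_, rfl⟩
  obtain ⟨c0, hc0⟩ : ∃ c0 : ENNReal, c0 = ENNReal.ofReal (9 * Real.pi ^ 2 / 100 * (1 / 10 ^ 9)) := ⟨_, rfl⟩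
  obtain ⟨W, hW⟩ : ∃ W : ℕ → Set ℝ, W = fun k => Ioc (st R k + sgk k 1) (st R k + sgk k 1 + 1 / (10 ^ 9 * 4 ^ k)) := ⟨_, rfl⟩
  have hsg : ∀ k : ℕ, 0 < sgk k 1 ∧ sgk k 1 ≤ 1 / 4 ^ (k + 1) := by
    intro k
    unfold sgk del
    push_cast
    constructor
    · positivity
    · apply div_le_div_of_nonneg_right _ (by positivity)
      norm_num
  have hst : ∀ k : ℕ, st R k = R * (1 / 4 ^ k) := fun k => by unfold st; ring
  have hWs : ∀ k : ℕ, W k ⊆ Ioc (R * (1 / 4 ^ k)) (2 * (R * (1 / 4 ^ k))) := by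
    intro k t ht
    rw [hW, mem_Ioc, hst] at ht
    obtain ⟨s1, s2⟩ := hsg k
    have e1 : (1 : ℝ) / 4 ^ (k + 1) = 1 / 4 * (1 / 4 ^ k) := by
      rw [pow_succ]
      field_simp
    have e2 : (1 : ℝ) / (10 ^ 9 * 4 ^ k) = 1 / 10 ^ 9 * (1 / 4 ^ k) := by
      field_simp
    rw [e1] at s2
    rw [e2] at ht
    have hq : (0 : ℝ) < 1 / 4 ^ k := by positivity
    constructor
    · linarith
    · nlinarith
  -- one window
  have hone : ∀ k : ℕ, 1 ≤ k → W k ⊆ Ioo 0 T → c0 ≤ ∫⁻ t in W k, g t := by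
    intro k hk hsub
    have hae : ∀ᵐ t ∂(volume.restrict (W k)), WGrad (u t) (G₁ t) (G₂ t) := ae_restrict_of_ae_restrict_of_subset hsub hgr
    have hFm : StronglyMeasurable (fun t => ∫ x in Q, u t x * phi k x) := by
      have h1 : Measurable (fun q : ℝ × P => u q.1 q.2 * phi k q.2) := hu.mul ((measurable_phi k).comp measurable_snd)
      exact h1.stronglyMeasurable.integral_prod_right'
    have hFb : ∀ t, ‖(∫ x in Q, u t x * phi k x) - 3 / 40‖ ≤ 8 / 7 + 3 / 40 := by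
      intro t
      have h1 : ‖∫ x in Q, u t x * phi k x‖ ≤ 8 / 7 * volume.real Q := by
        apply norm_setIntegral_le_of_norm_le_const (by rw [volume_Q]; exact ENNReal.one_lt_top)
        intro x _
        rw [Real.norm_eq_abs, abs_mul]
        calc |u t x| * |phi k x| ≤ 8 / 7 * 1 := mul_le_mul (hub t x) (abs_phi k x) (abs_nonneg _) (by norm_num)
          _ = 8 / 7 := mul_one _
      have hv : volume.real Q = 1 := by
        rw [measureReal_def, volume_Q]
        simp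
      rw [hv, mul_one] at h1
      calc ‖(∫ x in Q, u t x * phi k x) - 3 / 40‖ ≤ ‖∫ x in Q, u t x * phi k x‖ + ‖(3 / 40 : ℝ)‖ := norm_sub_le _ _
        _ ≤ _ := by
          have : ‖(3 / 40 : ℝ)‖ = 3 / 40 := by norm_num
          rw [this]
          linarith
    have hWfin : volume (W k) ≠ ⊤ := by
      rw [hW]
      simp only [Real.volume_Ioc]
      exact ENNReal.ofReal_ne_top
    have hFi0 : IntegrableOn (fun t => (∫ x in Q, u t x * phi k x) - 3 / 40) (W k) := by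
      apply Measure.integrableOn_of_bounded (M := 8 / 7 + 3 / 40) hWfin
      · exact (hFm.sub stronglyMeasurable_const).aestronglyMeasurable
      · exact Eventually.of_forall hFb
    have hFi : IntegrableOn (fun t => (∫ x in Q, u t x * phi k x)) (W k) := by
      have h1 : IntegrableOn (fun _ : ℝ => (3 / 40 : ℝ)) (W k) := integrableOn_const hWfin
      have h2 : IntegrableOn (fun t => ((∫ x in Q, u t x * phi k x) - 3 / 40) + 3 / 40) (W k) := hFi0.add h1
      simpa only [sub_add_cancel] using h2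
    have hwk : (0 : ℝ) ≤ 1 / (10 ^ 9 * 4 ^ k) := by positivity
    have hint : 3 / 40 * (1 / (10 ^ 9 * 4 ^ k)) ≤ ∫ t in W k, ((∫ x in Q, u t x * phi k x) - 3 / 40) := by
      have h1 := hwin k hk
      rw [intervalIntegral.integral_of_le (by linarith)] at h1
      have h2 : ∫ t in W k, ((∫ x in Q, u t x * phi k x) - 3 / 40) = (∫ t in W k, (∫ x in Q, u t x * phi k x)) - 3 / 40 * (1 / (10 ^ 9 * 4 ^ k)) := by
        rw [integral_sub hFi (integrableOn_const hWfin), setIntegral_const, smul_eq_mul]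
        congr 1
        have : volume.real (W k) = 1 / (10 ^ 9 * 4 ^ k) := by
          rw [hW]
          show volume.real (Ioc _ _) = _
          rw [Real.volume_real_Ioc_of_le (by linarith)]
          ring
        rw [this]
        ring
      rw [h2]
      rw [hW]
      show 3 / 40 * (1 / (10 ^ 9 * 4 ^ k)) ≤ (∫ t in Ioc (st R k + sgk k 1) (st R k + sgk k 1 + 1 / (10 ^ 9 * 4 ^ k)), (∫ x in Q, u t x * phi k x)) - 3 / 40 * (1 / (10 ^ 9 * 4 ^ k))
      linarith
    have h5 : ENNReal.ofReal (3 / 40 * (1 / (10 ^ 9 * 4 ^ k))) ≤ ENNReal.ofReal (5 / (6 * (Real.pi * 2 ^ k) ^ 2)) * ∫⁻ t in W k, g t := by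
      calc ENNReal.ofReal (3 / 40 * (1 / (10 ^ 9 * 4 ^ k))) ≤ ENNReal.ofReal (∫ t in W k, ((∫ x in Q, u t x * phi k x) - 3 / 40)) := ENNReal.ofReal_le_ofReal hint
        _ ≤ ∫⁻ t in W k, ENNReal.ofReal ((∫ x in Q, u t x * phi k x) - 3 / 40) := ofReal_int_le hFi0
        _ ≤ ∫⁻ t in W k, ENNReal.ofReal (5 / (6 * (Real.pi * 2 ^ k) ^ 2)) * g t := by
          apply lintegral_mono_ae
          filter_upwards [hae] with t ht
          rw [hg]
          exact one_time k hk ht (hG₁.comp (measurable_const.prodMk measurable_id))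
        _ = _ := lintegral_const_mul' _ _ ENNReal.ofReal_ne_top
    obtain ⟨A, hA⟩ : ∃ A : ℝ, A = 5 / (6 * (Real.pi * 2 ^ k) ^ 2) := ⟨_, rfl⟩
    have hA0 : 0 < A := by rw [hA]; positivity
    rw [← hA] at h5
    have h6 : c0 = ENNReal.ofReal (1 / A) * ENNReal.ofReal (3 / 40 * (1 / (10 ^ 9 * 4 ^ k))) := by
      rw [← ENNReal.ofReal_mul (by positivity), hc0, hA]
      congr 1
      have e4 : (4 : ℝ) ^ k = (2 ^ k) ^ 2 := by
        rw [← pow_mul, mul_comm, pow_mul]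
        norm_num
      rw [e4]
      field_simp
      ring
    rw [h6]
    calc ENNReal.ofReal (1 / A) * ENNReal.ofReal (3 / 40 * (1 / (10 ^ 9 * 4 ^ k))) ≤ ENNReal.ofReal (1 / A) * (ENNReal.ofReal A * ∫⁻ t in W k, g t) := by gcongr
      _ = ∫⁻ t in W k, g t := by
        rw [← mul_assoc, ← ENNReal.ofReal_mul (by positivity), one_div_mul_cancel hA0.ne', ENNReal.ofReal_one, one_mul]
  -- the first block
  obtain ⟨k0, hk0⟩ : ∃ k0 : ℕ, ∀ k, k0 ≤ k → 2 * (R * (1 / 4 ^ k)) < T := by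
    have h1 : Tendsto (fun k : ℕ => 2 * (R * ((1 / 4 : ℝ) ^ k))) atTop (𝓝 (2 * (R * 0))) :=
      ((tendsto_pow_atTop_nhds_zero_of_lt_one (by norm_num) (by norm_num)).const_mul R).const_mul 2
    rw [mul_zero, mul_zero] at h1
    have h2 := h1.eventually (gt_mem_nhds hT)
    obtain ⟨k0, h3⟩ := eventually_atTop.1 h2
    refine ⟨k0, fun k hk => ?_⟩
    have := h3 k hk
    rwa [one_div_pow] at this
  have hdisj : Pairwise (Function.onFun Disjoint (fun j : ℕ => W (k0 + 1 + j))) := by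
    have key : ∀ i j : ℕ, i < j → Disjoint (W (k0 + 1 + i)) (W (k0 + 1 + j)) := by
      intro i j hij
      rw [Set.disjoint_left]
      intro t h1 h2
      have h3 := hWs _ h1
      have h4 := hWs _ h2
      rw [mem_Ioc] at h3 h4
      have h5 : (1 : ℝ) / 4 ^ (k0 + 1 + j) ≤ 1 / 4 * (1 / 4 ^ (k0 + 1 + i)) := by
        have e : (1 : ℝ) / 4 * (1 / 4 ^ (k0 + 1 + i)) = 1 / 4 ^ (k0 + 1 + i + 1) := by
          rw [pow_succ (4 : ℝ) (k0 + 1 + i)]
          field_simp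
        rw [e]
        apply one_div_le_one_div_of_le (by positivity)
        exact pow_le_pow_right₀ (by norm_num) (by omega)
      have hq : (0 : ℝ) < 1 / 4 ^ (k0 + 1 + i) := by positivity
      have h6 : R * (1 / 4 ^ (k0 + 1 + j)) ≤ R * (1 / 4 * (1 / 4 ^ (k0 + 1 + i))) := mul_le_mul_of_nonneg_left h5 (by linarith)
      nlinarith [h3.1, h4.2, mul_pos (by linarith : (0 : ℝ) < R) hq]
    intro i j hij
    rcases lt_or_gt_of_ne hij with h | h
    · exact key i j h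
    · exact (key j i h).symm
  have hsubT : ∀ j : ℕ, W (k0 + 1 + j) ⊆ Ioo 0 T := by
    intro j t ht
    have h1 := hWs _ ht
    rw [mem_Ioc] at h1
    have h2 := hk0 (k0 + 1 + j) (by omega)
    have hq : (0 : ℝ) < R * (1 / 4 ^ (k0 + 1 + j)) := mul_pos (by linarith) (by positivity)
    exact ⟨by linarith, by linarith⟩
  have hmeas : ∀ j : ℕ, MeasurableSet (W (k0 + 1 + j)) := by
    intro j
    rw [hW]
    exact measurableSet_Ioc
  have hU : ∫⁻ t in ⋃ j : ℕ, W (k0 + 1 + j), g t = ⊤ := by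
    rw [lintegral_iUnion hmeas hdisj]
    have h1 : ∑' _j : ℕ, c0 = ⊤ := by
      apply ENNReal.tsum_const_eq_top_of_ne_zero
      rw [hc0, Ne, ENNReal.ofReal_eq_zero, not_le]
      positivity
    rw [← top_le_iff, ← h1]
    exact ENNReal.tsum_le_tsum (fun j => hone _ (by omega) (hsubT j))
  have hfinal : ∫⁻ t in ⋃ j : ℕ, W (k0 + 1 + j), g t ≤ ∫⁻ t in Ioo 0 T, g t :=
    lintegral_mono_set (iUnion_subset hsubT)
  rw [hU, top_le_iff, hg] at hfinal
  exact hfinal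

end Pool.Agent.Q222.AD
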