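import Pool.Agent.Q222.AD.Base

/-!
Project AD (helper61), helper222: AD-17 and AD-18 (`S_P1`, `S_P2`).
-/

set_option autoImplicit false

namespace Pool.Agent.Q222.AD

open MeasureTheory Set
open Pool.Agent.Q61.AD

/-- the two-dimensional estimate -/
theorem lip2 {δ : ℝ} (hδ : 0 < δ) (α : ℝ → ℝ) (h1 : ∀ x, |α x| ≤ 1) (hα : ∀ x y, |α x - α y| ≤ |x - y| / δ) (j : ℕ) (θ V : ℝ)
    (p q z1 z2 : ℝ) :
    |α (2 ^ j * (p + z1 - θ * (V * chi ⌊2 ^ j * (q + z2)⌋))) * wav δ (2 ^ j * (q + z2)) -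
      α (2 ^ j * (p - θ * (V * chi ⌊2 ^ j * q⌋))) * wav δ (2 ^ j * q)| ≤ 2 ^ j / δ * (|z1| + |z2|) := by
  have h2j : (0 : ℝ) < 2 ^ j := by positivity
  have hq : |2 ^ j * (q + z2) - 2 ^ j * q| / δ = 2 ^ j / δ * |z2| := by
    have : 2 ^ j * (q + z2) - 2 ^ j * q = 2 ^ j * z2 := by ring
    rw [this, abs_mul, abs_of_pos h2j]
    ring
  have hz1 : 0 ≤ 2 ^ j / δ * |z1| := by positivity
  by_cases hc : chi ⌊2 ^ j * (q + z2)⌋ = chi ⌊2 ^ j * q⌋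
  · rw [hc]
    set a := α (2 ^ j * (p + z1 - θ * (V * chi ⌊2 ^ j * q⌋))) with ha
    set b := α (2 ^ j * (p - θ * (V * chi ⌊2 ^ j * q⌋))) with hb
    have hab : |a - b| ≤ 2 ^ j / δ * |z1| := by
      have := hα (2 ^ j * (p + z1 - θ * (V * chi ⌊2 ^ j * q⌋))) (2 ^ j * (p - θ * (V * chi ⌊2 ^ j * q⌋)))
      have e : 2 ^ j * (p + z1 - θ * (V * chi ⌊2 ^ j * q⌋)) - 2 ^ j * (p - θ * (V * chi ⌊2 ^ j * q⌋)) = 2 ^ j * z1 := by ring
      rw [e, abs_mul, abs_of_pos h2j] at this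
      calc |a - b| ≤ 2 ^ j * |z1| / δ := this
        _ = _ := by ring
    have e : a * wav δ (2 ^ j * (q + z2)) - b * wav δ (2 ^ j * q) =
        (a - b) * wav δ (2 ^ j * (q + z2)) + b * (wav δ (2 ^ j * (q + z2)) - wav δ (2 ^ j * q)) := by ring
    rw [e]
    refine (abs_add_le _ _).trans ?_
    rw [abs_mul, abs_mul, mul_add (2 ^ j / δ)]
    apply add_le_add
    · calc |a - b| * |wav δ (2 ^ j * (q + z2))| ≤ |a - b| * 1 := mul_le_mul_of_nonneg_left (abs_wav hδ _).1 (abs_nonneg _)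
        _ ≤ _ := by rw [mul_one]; exact hab
    · calc |b| * |wav δ (2 ^ j * (q + z2)) - wav δ (2 ^ j * q)| ≤ 1 * (2 ^ j / δ * |z2|) := by
            apply mul_le_mul (h1 _) _ (abs_nonneg _) zero_le_one
            rw [← hq]
            exact wav_lip hδ _ _
        _ = _ := one_mul _
  · have hf : ⌊2 ^ j * (q + z2)⌋ ≠ ⌊2 ^ j * q⌋ := fun h => hc (by rw [h])
    have h3 := diff_floor hδ hf
    rw [hq] at h3
    refine (abs_sub _ _).trans ?_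
    rw [abs_mul, abs_mul]
    have h4 : |α (2 ^ j * (p + z1 - θ * (V * chi ⌊2 ^ j * (q + z2)⌋)))| * |wav δ (2 ^ j * (q + z2))| ≤ |wav δ (2 ^ j * (q + z2))| :=
      mul_le_of_le_one_left (abs_nonneg _) (h1 _)
    have h5 : |α (2 ^ j * (p - θ * (V * chi ⌊2 ^ j * q⌋)))| * |wav δ (2 ^ j * q)| ≤ |wav δ (2 ^ j * q)| :=
      mul_le_of_le_one_left (abs_nonneg _) (h1 _)
    rw [mul_add (2 ^ j / δ)]
    linarith

theorem sq_of_abs {A K a b : ℝ} (_hK : 0 ≤ K) (h : |A| ≤ K * (|a| + |b|)) : A ^ 2 ≤ (2 * K) ^ 2 * (a ^ 2 + b ^ 2) := by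
  have h1 : A ^ 2 ≤ (K * (|a| + |b|)) ^ 2 := by
    rw [← sq_abs A]
    exact pow_le_pow_left₀ (abs_nonneg _) h 2
  have h2 : (|a| + |b|) ^ 2 ≤ 4 * (a ^ 2 + b ^ 2) := by
    have ha := sq_abs a
    have hb := sq_abs b
    nlinarith [sq_nonneg (|a| - |b|), sq_nonneg (|a|), sq_nonneg (|b|)]
  calc A ^ 2 ≤ (K * (|a| + |b|)) ^ 2 := h1
    _ = K ^ 2 * (|a| + |b|) ^ 2 := by ring
    _ ≤ K ^ 2 * (4 * (a ^ 2 + b ^ 2)) := mul_le_mul_of_nonneg_left h2 (by positivity)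
    _ = _ := by ring

theorem t_P1 : S_P1 := by
  intro j δ hδ hδ2
  have hK : (0 : ℝ) ≤ 2 ^ j / δ := by positivity
  have eK : 2 * 2 ^ j / δ = 2 * (2 ^ j / δ) := by ring
  refine ⟨fun θ V x z => ?_, fun θ V x z => ?_⟩
  · rw [eK]
    apply sq_of_abs hK
    have := lip2 hδ (wav δ) (fun x => (abs_wav hδ x).1) (wav_lip hδ) j θ V x.1 x.2 z.1 z.2
    have e1 : F0 j δ (x + z - θ • vh j V (x + z)) = wav δ (2 ^ j * (x.1 + z.1 - θ * (V * chi ⌊2 ^ j * (x.2 + z.2)⌋))) * wav δ (2 ^ j * (x.2 + z.2)) := by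
      simp [F0, vh]
    have e2 : F0 j δ (x - θ • vh j V x) = wav δ (2 ^ j * (x.1 - θ * (V * chi ⌊2 ^ j * x.2⌋))) * wav δ (2 ^ j * x.2) := by
      simp [F0, vh]
    show |F0 j δ (x + z - θ • vh j V (x + z)) - F0 j δ (x - θ • vh j V x)| ≤ _
    rw [e1, e2]
    exact this
  · rw [eK]
    apply sq_of_abs hK
    have := lip2 hδ (fun y => (1 - 2 * chi ⌊y⌋) * wav δ y) (fun y => by
        rw [abs_mul, abs_sgn, one_mul]
        exact (abs_wav hδ y).1) (sgn_wav_lip hδ (fun n => 1 - 2 * chi n) (fun n => (abs_sgn n).le)) j θ V x.2 x.1 z.2 z.1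
    have e1 : G0 j δ (x + z - θ • vv j V (x + z)) = (1 - 2 * chi ⌊2 ^ j * (x.2 + z.2 - θ * (V * chi ⌊2 ^ j * (x.1 + z.1)⌋))⌋) *
        wav δ (2 ^ j * (x.2 + z.2 - θ * (V * chi ⌊2 ^ j * (x.1 + z.1)⌋))) * wav δ (2 ^ j * (x.1 + z.1)) := by
      simp [G0, F0, vv]
      ring
    have e2 : G0 j δ (x - θ • vv j V x) = (1 - 2 * chi ⌊2 ^ j * (x.2 - θ * (V * chi ⌊2 ^ j * x.1⌋))⌋) *
        wav δ (2 ^ j * (x.2 - θ * (V * chi ⌊2 ^ j * x.1⌋))) * wav δ (2 ^ j * x.1) := by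
      simp [G0, F0, vv]
      ring
    show |G0 j δ (x + z - θ • vv j V (x + z)) - G0 j δ (x - θ • vv j V x)| ≤ _
    rw [e1, e2, add_comm (|z.1|)]
    exact this

theorem wav_sub_chi (δ y : ℝ) (n : ℤ) : wav δ (y - chi n) = (1 - 2 * chi n) * wav δ y := by
  rcases chi_cases n with h | h <;> rw [h]
  · simp
  · rw [wav_sub_one]; ring

theorem t_P2 : S_P2 := by
  intro j δ hδ hδ2
  have h2j : (2 : ℝ) ^ j ≠ 0 := by positivity
  refine ⟨fun θ V h x => ?_, fun θ V h x => ?_⟩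
  · have e : 2 ^ j * (x.1 - θ * (V * chi ⌊2 ^ j * x.2⌋)) = 2 ^ j * x.1 - chi ⌊2 ^ j * x.2⌋ := by
      rw [← mul_assoc θ, h]
      field_simp
    have e2 : F0 j δ (x - θ • vh j V x) = wav δ (2 ^ j * (x.1 - θ * (V * chi ⌊2 ^ j * x.2⌋))) * wav δ (2 ^ j * x.2) := by
      simp [F0, vh]
    rw [e2, e, wav_sub_chi]
    unfold G0 F0
    ring
  · have e : 2 ^ j * (x.2 - θ * (V * chi ⌊2 ^ j * x.1⌋)) = 2 ^ j * x.2 - 2 * chi ⌊2 ^ j * x.1⌋ := by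
      rw [← mul_assoc θ, h]
      field_simp
    have e2 : G0 j δ (x - θ • vv j V x) = (1 - 2 * chi ⌊2 ^ j * (x.2 - θ * (V * chi ⌊2 ^ j * x.1⌋))⌋) *
        (wav δ (2 ^ j * x.1) * wav δ (2 ^ j * (x.2 - θ * (V * chi ⌊2 ^ j * x.1⌋)))) := by
      simp [G0, F0, vv]
    rw [e2, e]
    unfold H0 G0 F0
    rcases chi_cases ⌊2 ^ j * x.1⌋ with h1 | h1 <;> rw [h1]
    · simp
    · have h3 : ⌊2 ^ j * x.2 - 2 * (1 : ℝ)⌋ = ⌊2 ^ j * x.2⌋ - 2 := by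
        have : 2 ^ j * x.2 - 2 * (1 : ℝ) = 2 ^ j * x.2 - ((2 : ℤ) : ℝ) := by push_cast; ring
        rw [this, Int.floor_sub_intCast]
      have h4 : 2 ^ j * x.2 - 2 * (1 : ℝ) = 2 ^ j * x.2 - 2 := by ring
      rw [h3, chi_sub_two, h4, wav_sub_two]
      ring

end Pool.Agent.Q222.AD
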