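import Pool.Agent.Q222.AD.Sh

/-!
Project AD (helper61), helper222: AD-19 (`S_P3`).
-/

set_option autoImplicit false

namespace Pool.Agent.Q222.AD

open MeasureTheory Set
open Pool.Agent.Q61.AD

theorem wav_lips {δ : ℝ} (hδ : 0 < δ) : LipschitzWith (Real.toNNReal (1 / δ)) (wav δ) := by
  apply LipschitzWith.of_dist_le_mul
  intro x y
  rw [Real.dist_eq, Real.dist_eq, Real.coe_toNNReal _ (by positivity)]
  refine (wav_lip hδ x y).trans (le_of_eq ?_)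
  ring

theorem continuous_wav {δ : ℝ} (hδ : 0 < δ) : Continuous (wav δ) := (wav_lips hδ).continuous

theorem measurable_F0 (j : ℕ) {δ : ℝ} (hδ : 0 < δ) : Measurable (F0 j δ) := by
  have h := (continuous_wav hδ).measurable
  exact (h.comp (measurable_fst.const_mul (2 ^ j))).mul (h.comp (measurable_snd.const_mul (2 ^ j)))

theorem measurable_sgn (j : ℕ) : Measurable (fun y : ℝ => 1 - 2 * chi ⌊2 ^ j * y⌋) :=
  (((measurable_chi.comp (Int.measurable_floor.comp (measurable_const.mul measurable_id))).const_mul 2)).const_sub 1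

theorem measurable_G0 (j : ℕ) {δ : ℝ} (hδ : 0 < δ) : Measurable (G0 j δ) :=
  ((measurable_sgn j).comp measurable_snd).mul (measurable_F0 j hδ)

theorem measurable_H0 (j : ℕ) {δ : ℝ} (hδ : 0 < δ) : Measurable (H0 j δ) :=
  ((measurable_sgn j).comp measurable_fst).mul (measurable_G0 j hδ)

theorem measurable_pmf (j : ℕ) : Measurable (fun y : ℝ => pm ⌊2 ^ j * y⌋) :=
  measurable_pm.comp (Int.measurable_floor.comp (measurable_const.mul measurable_id))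

theorem chk_eq (j : ℕ) (x : P) : chk j x = pm ⌊2 ^ j * x.1⌋ * pm ⌊2 ^ j * x.2⌋ := by
  unfold chk
  rw [pm_add]

theorem measurable_chk (j : ℕ) : Measurable (chk j) := by
  have : chk j = fun x => pm ⌊2 ^ j * x.1⌋ * pm ⌊2 ^ j * x.2⌋ := funext (chk_eq j)
  rw [this]
  exact ((measurable_pmf j).comp measurable_fst).mul ((measurable_pmf j).comp measurable_snd)

theorem two_dvd_r (j : ℕ) (hj : 1 ≤ j) : (2 : ℝ) ^ j * 1 = ((2 * 2 ^ (j - 1) : ℤ) : ℝ) := by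
  obtain ⟨k, rfl⟩ := Nat.exists_eq_add_of_le hj
  rw [Nat.add_sub_cancel_left]
  push_cast
  ring

theorem wav_per (j : ℕ) (hj : 1 ≤ j) (δ x : ℝ) : wav δ (2 ^ j * (x + 1)) = wav δ (2 ^ j * x) := by
  rw [mul_add, two_dvd_r j hj]
  exact wav_add_even δ _ (even_two_mul _)

theorem per_F0 (j : ℕ) (hj : 1 ≤ j) (δ : ℝ) : Per (F0 j δ) := by
  intro x y
  constructor
  · show wav δ (2 ^ j * (x + 1)) * wav δ (2 ^ j * y) = wav δ (2 ^ j * x) * wav δ (2 ^ j * y)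
    rw [wav_per j hj]
  · show wav δ (2 ^ j * x) * wav δ (2 ^ j * (y + 1)) = wav δ (2 ^ j * x) * wav δ (2 ^ j * y)
    rw [wav_per j hj]

theorem per_G0 (j : ℕ) (hj : 2 ≤ j) (δ : ℝ) : Per (G0 j δ) := by
  intro x y
  have h := per_F0 j (by omega) δ x y
  constructor
  · show (1 - 2 * chi ⌊2 ^ j * y⌋) * F0 j δ (x + 1, y) = (1 - 2 * chi ⌊2 ^ j * y⌋) * F0 j δ (x, y)
    rw [h.1]
  · show (1 - 2 * chi ⌊2 ^ j * (y + 1)⌋) * F0 j δ (x, y + 1) = (1 - 2 * chi ⌊2 ^ j * y⌋) * F0 j δ (x, y)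
    rw [h.2, chi_floor_add j (four_dvd j hj)]

theorem per_H0 (j : ℕ) (hj : 2 ≤ j) (δ : ℝ) : Per (H0 j δ) := by
  intro x y
  have h := per_G0 j hj δ x y
  constructor
  · show (1 - 2 * chi ⌊2 ^ j * (x + 1)⌋) * G0 j δ (x + 1, y) = (1 - 2 * chi ⌊2 ^ j * x⌋) * G0 j δ (x, y)
    rw [h.1, chi_floor_add j (four_dvd j hj)]
  · show (1 - 2 * chi ⌊2 ^ j * x⌋) * G0 j δ (x, y + 1) = (1 - 2 * chi ⌊2 ^ j * x⌋) * G0 j δ (x, y)
    rw [h.2]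

theorem abs_F0 (j : ℕ) {δ : ℝ} (hδ : 0 < δ) (x : P) : |F0 j δ x| ≤ 1 := by
  unfold F0
  rw [abs_mul]
  exact mul_le_one₀ (abs_wav hδ _).1 (abs_nonneg _) (abs_wav hδ _).1

theorem abs_G0 (j : ℕ) {δ : ℝ} (hδ : 0 < δ) (x : P) : |G0 j δ x| ≤ 1 := by
  unfold G0
  rw [abs_mul, abs_sgn, one_mul]
  exact abs_F0 j hδ x

theorem abs_H0 (j : ℕ) {δ : ℝ} (hδ : 0 < δ) (x : P) : |H0 j δ x| ≤ 1 := by
  unfold H0
  rw [abs_mul, abs_sgn, one_mul]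
  exact abs_G0 j hδ x

theorem pmf_add (j : ℕ) {x h : ℝ} {m : ℤ} (hm : 2 ^ j * h = (m : ℝ)) : pm ⌊2 ^ j * (x + h)⌋ = pm m * pm ⌊2 ^ j * x⌋ := by
  rw [mul_add, hm, Int.floor_add_intCast, pm_add, mul_comm]

theorem chk_add1 (j : ℕ) {x y h : ℝ} {m : ℤ} (hm : 2 ^ j * h = (m : ℝ)) : chk j (x + h, y) = pm m * chk j (x, y) := by
  rw [chk_eq, chk_eq]
  show pm ⌊2 ^ j * (x + h)⌋ * pm ⌊2 ^ j * y⌋ = pm m * (pm ⌊2 ^ j * x⌋ * pm ⌊2 ^ j * y⌋)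
  rw [pmf_add j hm]
  ring

theorem chk_add2 (j : ℕ) {x y h : ℝ} {m : ℤ} (hm : 2 ^ j * h = (m : ℝ)) : chk j (x, y + h) = pm m * chk j (x, y) := by
  rw [chk_eq, chk_eq]
  show pm ⌊2 ^ j * x⌋ * pm ⌊2 ^ j * (y + h)⌋ = pm m * (pm ⌊2 ^ j * x⌋ * pm ⌊2 ^ j * y⌋)
  rw [pmf_add j hm]
  ring

theorem abs_chk (j : ℕ) (x : P) : |chk j x| = 1 := abs_pm _

theorem bd_chk (j : ℕ) (hj : 1 ≤ j) : Bd 1 (chk j) := by
  refine ⟨measurable_chk j, fun x y => ?_, fun x => (abs_chk j x).le⟩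
  rw [chk_add1 j (two_dvd_r j hj), chk_add2 j (two_dvd_r j hj), pm_even (even_two_mul _), one_mul]
  exact ⟨rfl, rfl⟩

theorem pow_div2 (i j : ℕ) (h : i + 1 ≤ j) : (2 : ℝ) ^ j * (1 / ((2 ^ i : ℕ) : ℝ)) = ((2 * 2 ^ (j - i - 1) : ℤ) : ℝ) := by
  obtain ⟨k, rfl⟩ := Nat.exists_eq_add_of_le h
  have e : i + 1 + k - i - 1 = k := by omega
  rw [e]
  push_cast
  have : (2 : ℝ) ^ i ≠ 0 := by positivity
  field_simp
  ring

theorem int_pmf (j : ℕ) (hj : 1 ≤ j) : ∫ x in Ico (0 : ℝ) 1, pm ⌊2 ^ j * x⌋ = 0 := by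
  have h1 := shift_one (g := fun x => pm ⌊2 ^ j * x⌋) (fun x => by
    rw [pmf_add j (two_dvd_r j hj), pm_even (even_two_mul _), one_mul]) (1 / 2 ^ j)
  have h2 : ∀ x : ℝ, pm ⌊2 ^ j * (x + 1 / 2 ^ j)⌋ = - pm ⌊2 ^ j * x⌋ := by
    intro x
    have e : (2 : ℝ) ^ j * (1 / 2 ^ j) = ((1 : ℤ) : ℝ) := by
      have : (2 : ℝ) ^ j ≠ 0 := by positivity
      field_simp
      norm_num
    rw [pmf_add j e]
    have : pm 1 = -1 := by
      unfold pm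
      rw [if_neg (by decide)]
    rw [this]
    ring
  simp only [h2] at h1
  rw [integral_neg] at h1
  linarith

theorem t_P3 : S_P3 := by
  intro j δ hj hδ hδ2
  refine ⟨⟨measurable_F0 j hδ, per_F0 j hj δ, abs_F0 j hδ⟩, bd_chk j hj, fun hj2 => ⟨⟨measurable_G0 j hδ, per_G0 j hj2 δ, abs_G0 j hδ⟩,
    ⟨measurable_H0 j hδ, per_H0 j hj2 δ, abs_H0 j hδ⟩⟩, ?_, ?_⟩
  · have e : chk j = fun x => pm ⌊2 ^ j * x.1⌋ * pm ⌊2 ^ j * x.2⌋ := funext (chk_eq j)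
    rw [e]
    unfold Q
    rw [Measure.volume_eq_prod, setIntegral_prod_mul (fun x : ℝ => pm ⌊2 ^ j * x⌋) (fun x : ℝ => pm ⌊2 ^ j * x⌋), int_pmf j hj, zero_mul]
  · intro i hi x y
    rw [chk_add1 j (pow_div2 i j hi), chk_add2 j (pow_div2 i j hi), pm_even (even_two_mul _), one_mul]
    exact ⟨rfl, rfl⟩

end Pool.Agent.Q222.AD
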