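import Pool.Agent.Q222.AD.P3

/-!
Project AD (helper61), helper222: AD-20 (`S_P4`).
-/

set_option autoImplicit false

namespace Pool.Agent.Q222.AD

open MeasureTheory Set
open Pool.Agent.Q61.AD

/-- the profile of the cracks -/
noncomputable def prf (δ y : ℝ) : ℝ := 1 - min 1 (dZ y / δ)

theorem prf_bounds {δ : ℝ} (hδ : 0 < δ) (y : ℝ) : 0 ≤ prf δ y ∧ prf δ y ≤ 1 := by
  obtain ⟨h1, h2, -⟩ := mn_bounds hδ y
  unfold prf
  exact ⟨by linarith, by linarith⟩

theorem prf_per (δ y : ℝ) : prf δ (y + 1) = prf δ y := by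
  unfold prf
  have := dZ_add_int y 1
  push_cast at this
  rw [this]

theorem continuous_dZ : Continuous dZ := by
  have h : LipschitzWith 1 dZ := by
    apply LipschitzWith.of_dist_le_mul
    intro x y
    rw [Real.dist_eq, Real.dist_eq]
    simpa using dZ_sub x y
  exact h.continuous

theorem continuous_prf (δ : ℝ) : Continuous (prf δ) := by
  unfold prf
  exact continuous_const.sub (continuous_const.min (continuous_dZ.div_const δ))

theorem dZ_ge {y : ℝ} (h : |y| ≤ 1 / 2) : |y| ≤ dZ y := by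
  unfold dZ
  have h1 := abs_le.1 h
  by_cases h0 : round y = 0
  · rw [h0]; simp
  · have h2 : (1 : ℝ) ≤ |(round y : ℝ)| := by
      have := Int.one_le_abs h0
      exact_mod_cast this
    have h3 := abs_sub_abs_le_abs_sub (round y : ℝ) y
    rw [abs_sub_comm] at h3
    linarith

theorem int_prf {δ : ℝ} (hδ : 0 < δ) (hδ2 : δ ≤ 1 / 2) : ∫ y in (0 : ℝ)..1, prf δ y ≤ 2 * δ := by
  have hp : Function.Periodic (prf δ) 1 := prf_per δ
  have h1 := hp.intervalIntegral_add_eq 0 (-(1 / 2))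
  rw [zero_add] at h1
  rw [h1]
  have e : -(1 / 2 : ℝ) + 1 = 1 / 2 := by norm_num
  rw [e, intervalIntegral.integral_of_le (by norm_num)]
  have hi : IntegrableOn (prf δ) (Ioc (-(1 / 2)) (1 / 2)) := (continuous_prf δ).integrableOn_Ioc
  have h2 : ∫ y in Ioc (-(1 / 2 : ℝ)) (1 / 2), prf δ y ≤ ∫ y in Ioc (-(1 / 2 : ℝ)) (1 / 2), (Ioo (-δ) δ).indicator (fun _ => (1 : ℝ)) y := by
    apply setIntegral_mono_on hi
    · apply Integrable.integrableOn
      rw [integrable_indicator_iff measurableSet_Ioo]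
      exact integrableOn_const (by rw [Real.volume_Ioo]; exact ENNReal.ofReal_ne_top)
    · exact measurableSet_Ioc
    · intro y hy
      by_cases hyd : y ∈ Ioo (-δ) δ
      · rw [indicator_of_mem hyd]
        exact (prf_bounds hδ y).2
      · rw [indicator_of_notMem hyd]
        have h3 : |y| ≤ 1 / 2 := by
          rw [abs_le]
          exact ⟨hy.1.le, hy.2⟩
        have h4 : δ ≤ |y| := by
          by_contra hcon
          push Not at hcon
          exact hyd (abs_lt.1 hcon)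
        have h5 := h4.trans (dZ_ge h3)
        unfold prf
        rw [min_eq_left]
        · norm_num
        · rw [le_div_iff₀ hδ]
          linarith
  refine h2.trans ?_
  rw [setIntegral_indicator measurableSet_Ioo, setIntegral_const, smul_eq_mul, mul_one]
  have h6 : (volume : Measure ℝ).real (Ioc (-(1 / 2)) (1 / 2) ∩ Ioo (-δ) δ) ≤ (volume : Measure ℝ).real (Ioo (-δ) δ) := by
    exact measureReal_mono inter_subset_right (by rw [Real.volume_Ioo]; exact ENNReal.ofReal_ne_top)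
  refine h6.trans ?_
  rw [Real.volume_real_Ioo_of_le (by linarith)]
  linarith

theorem int_prf_scaled (j : ℕ) {δ : ℝ} (hδ : 0 < δ) (hδ2 : δ ≤ 1 / 2) : ∫ y in Ico (0 : ℝ) 1, prf δ (2 ^ j * y) ≤ 2 * δ := by
  rw [integral_Ico_eq_integral_Ioc, ← intervalIntegral.integral_of_le zero_le_one]
  have h2j : (0 : ℝ) < 2 ^ j := by positivity
  rw [intervalIntegral.integral_comp_mul_left (prf δ) h2j.ne', mul_zero, mul_one]
  have hp : Function.Periodic (prf δ) 1 := prf_per δ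
  have h1 := hp.intervalIntegral_add_zsmul_eq (2 ^ j : ℤ) 0 (fun a b => (continuous_prf δ).intervalIntegrable a b)
  have e : (0 : ℝ) + (2 ^ j : ℤ) • (1 : ℝ) = 2 ^ j := by simp
  rw [e, zero_add] at h1
  rw [h1, smul_eq_mul, zsmul_eq_mul]
  push_cast
  rw [← mul_assoc, inv_mul_cancel₀ h2j.ne', one_mul]
  exact int_prf hδ hδ2

/-- the common estimate -/
theorem core_P4 (j : ℕ) {δ : ℝ} (hδ : 0 < δ) (hδ2 : δ ≤ 1 / 2) (f g : P → ℝ) (hf : Measurable f) (hg : Measurable g) (hf1 : ∀ x, |f x| ≤ 1) (hg1 : ∀ x, |g x| ≤ 1)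
    (h : ∀ x : P, (f x - g x) ^ 2 = (min 1 (dZ (2 ^ j * x.1) / δ) * min 1 (dZ (2 ^ j * x.2) / δ) - 1) ^ 2) :
    ∫ x in Q, (f x - g x) ^ 2 ≤ 4 * δ := by
  have hm1 : Measurable (fun x : P => prf δ (2 ^ j * x.1) + prf δ (2 ^ j * x.2)) :=
    ((continuous_prf δ).measurable.comp (measurable_fst.const_mul _)).add ((continuous_prf δ).measurable.comp (measurable_snd.const_mul _))
  have hb1 : ∀ x : P, |prf δ (2 ^ j * x.1) + prf δ (2 ^ j * x.2)| ≤ 2 := by
    intro x
    have h1 := prf_bounds hδ (2 ^ j * x.1)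
    have h2 := prf_bounds hδ (2 ^ j * x.2)
    rw [abs_of_nonneg (by linarith)]
    linarith
  have hm2 : Measurable (fun x : P => (f x - g x) ^ 2) := (hf.sub hg).pow_const 2
  have hb2 : ∀ x : P, |(f x - g x) ^ 2| ≤ 4 := by
    intro x
    have h1 := abs_le.1 (hf1 x)
    have h2 := abs_le.1 (hg1 x)
    rw [abs_of_nonneg (sq_nonneg _)]
    nlinarith
  have h1 : ∫ x in Q, (f x - g x) ^ 2 ≤ ∫ x in Q, (prf δ (2 ^ j * x.1) + prf δ (2 ^ j * x.2)) := by
    apply setIntegral_mono_on (integrableOn_Q hm2 hb2) (integrableOn_Q hm1 hb1) measurableSet_Q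
    intro x _
    rw [h x]
    obtain ⟨a1, a2, -⟩ := mn_bounds hδ (2 ^ j * x.1)
    obtain ⟨b1, b2, -⟩ := mn_bounds hδ (2 ^ j * x.2)
    unfold prf
    set a := min 1 (dZ (2 ^ j * x.1) / δ)
    set b := min 1 (dZ (2 ^ j * x.2) / δ)
    have hab : 0 ≤ a * b := mul_nonneg a1 b1
    have hab1 : a * b ≤ 1 := mul_le_one₀ a2 b1 b2
    nlinarith [mul_nonneg (sub_nonneg.2 a2) (sub_nonneg.2 b2)]
  refine h1.trans ?_
  rw [int_Q (integrableOn_Q hm1 hb1)]
  have hi : ∀ x : ℝ, IntegrableOn (fun y : ℝ => prf δ (2 ^ j * y)) (Ico 0 1) := by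
    intro x
    have : Continuous (fun y : ℝ => prf δ (2 ^ j * y)) := (continuous_prf δ).comp (continuous_const.mul continuous_id)
    exact this.integrableOn_Icc.mono_set Ico_subset_Icc_self
  have h2 : ∀ x : ℝ, ∫ y in Ico (0 : ℝ) 1, (prf δ (2 ^ j * x) + prf δ (2 ^ j * y)) = prf δ (2 ^ j * x) + ∫ y in Ico (0 : ℝ) 1, prf δ (2 ^ j * y) := by
    intro x
    rw [integral_add (integrable_const _) (hi 0), setIntegral_const]
    simp
  simp only [h2]
  rw [integral_add (hi 0) (integrable_const _), setIntegral_const]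
  have h3 := int_prf_scaled j hδ hδ2
  simp only [smul_eq_mul, Real.volume_real_Ico_of_le zero_le_one, sub_zero, one_mul]
  linarith

theorem floor_half (y : ℝ) : ⌊y⌋ = ⌊2 * y⌋ / 2 := by
  rw [Int.floor_eq_iff]
  have h1 := Int.floor_le (2 * y)
  have h2 := Int.lt_floor_add_one (2 * y)
  set n := ⌊2 * y⌋
  have h3 : n = 2 * (n / 2) + n % 2 := by omega
  have h4 : 0 ≤ n % 2 := by omega
  have h5 : n % 2 ≤ 1 := by omega
  have h3' : (n : ℝ) = 2 * ((n / 2 : ℤ) : ℝ) + ((n % 2 : ℤ) : ℝ) := by exact_mod_cast h3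
  have h4' : (0 : ℝ) ≤ ((n % 2 : ℤ) : ℝ) := by exact_mod_cast h4
  have h5' : ((n % 2 : ℤ) : ℝ) ≤ 1 := by exact_mod_cast h5
  constructor <;> linarith

theorem t_P4 : S_P4 := by
  intro j δ hj hδ hδ2
  constructor
  · apply core_P4 j hδ hδ2 _ _ (measurable_F0 j hδ) (measurable_chk j) (abs_F0 j hδ) (fun x => (abs_chk j x).le)
    intro x
    rw [chk_eq]
    unfold F0 wav
    have h1 := pm_mul_self ⌊2 ^ j * x.1⌋
    have h2 := pm_mul_self ⌊2 ^ j * x.2⌋
    set p := pm ⌊2 ^ j * x.1⌋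
    set q := pm ⌊2 ^ j * x.2⌋
    set a := min 1 (dZ (2 ^ j * x.1) / δ)
    set b := min 1 (dZ (2 ^ j * x.2) / δ)
    have e : (p * a * (q * b) - p * q) ^ 2 = (p * p) * (q * q) * (a * b - 1) ^ 2 := by ring
    rw [e, h1, h2]
    ring
  · intro hj2
    apply core_P4 j hδ hδ2 _ _ (measurable_H0 j hδ) (measurable_chk (j - 1)) (abs_H0 j hδ) (fun x => (abs_chk (j - 1) x).le)
    intro x
    rw [chk_eq]
    have hfl : ∀ y : ℝ, pm ⌊2 ^ (j - 1) * y⌋ = (1 - 2 * chi ⌊2 ^ j * y⌋) * pm ⌊2 ^ j * y⌋ := by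
      intro y
      rw [sgn_pm, floor_half (2 ^ (j - 1) * y)]
      congr 3
      have : (2 : ℝ) ^ j = 2 * 2 ^ (j - 1) := by
        rw [← pow_succ']
        congr 1
        omega
      rw [this]
      ring
    rw [hfl, hfl]
    unfold H0 G0 F0 wav
    have h1 := pm_mul_self ⌊2 ^ j * x.1⌋
    have h2 := pm_mul_self ⌊2 ^ j * x.2⌋
    have h3 := sgn_sq ⌊2 ^ j * x.1⌋
    have h4 := sgn_sq ⌊2 ^ j * x.2⌋
    set p := pm ⌊2 ^ j * x.1⌋
    set q := pm ⌊2 ^ j * x.2⌋
    set s := 1 - 2 * chi ⌊2 ^ j * x.1⌋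
    set t := 1 - 2 * chi ⌊2 ^ j * x.2⌋
    set a := min 1 (dZ (2 ^ j * x.1) / δ)
    set b := min 1 (dZ (2 ^ j * x.2) / δ)
    have e : (s * (t * (p * a * (q * b))) - s * p * (t * q)) ^ 2 = s ^ 2 * t ^ 2 * (p * p) * (q * q) * (a * b - 1) ^ 2 := by ring
    rw [e, h1, h2, h3, h4]
    ring

end Pool.Agent.Q222.AD
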