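import Pool.Agent.Q222.AD.Base

/-!
Project AD (helper61), helper222: AD-21 (`S_SH`).
-/

set_option autoImplicit false

namespace Pool.Agent.Q222.AD

open MeasureTheory Set
open Pool.Agent.Q61.AD

theorem volume_Q : volume Q = 1 := by
  unfold Q
  rw [Measure.volume_eq_prod, Measure.prod_prod, Real.volume_Ico]
  norm_num

theorem measurableSet_Q : MeasurableSet Q := measurableSet_Ico.prod measurableSet_Ico

theorem integrableOn_Q {f : P → ℝ} {M : ℝ} (hf : Measurable f) (hM : ∀ x, |f x| ≤ M) : IntegrableOn f Q := by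
  apply Measure.integrableOn_of_bounded (M := M) (by rw [volume_Q]; exact ENNReal.one_ne_top) hf.aestronglyMeasurable
  exact Filter.Eventually.of_forall (fun x => by rw [Real.norm_eq_abs]; exact hM x)

/-- translation invariance in one variable -/
theorem shift_one {g : ℝ → ℝ} (hg : ∀ x, g (x + 1) = g x) (h : ℝ) : ∫ x in Ico (0 : ℝ) 1, g (x + h) = ∫ x in Ico (0 : ℝ) 1, g x := by
  have hp : Function.Periodic g 1 := hg
  rw [integral_Ico_eq_integral_Ioc, integral_Ico_eq_integral_Ioc, ← intervalIntegral.integral_of_le zero_le_one,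
    ← intervalIntegral.integral_of_le zero_le_one, intervalIntegral.integral_comp_add_right g h]
  have := hp.intervalIntegral_add_eq (0 + h) 0
  rw [zero_add, zero_add] at this
  rw [zero_add, add_comm 1 h]
  exact this

theorem int_Q {f : P → ℝ} (hf : IntegrableOn f Q) : ∫ x in Q, f x = ∫ x in Ico (0 : ℝ) 1, ∫ y in Ico (0 : ℝ) 1, f (x, y) := by
  unfold Q at hf ⊢
  rw [Measure.volume_eq_prod] at hf ⊢
  exact setIntegral_prod f hf

theorem int_Q' {f : P → ℝ} (hf : IntegrableOn f Q) : ∫ x in Q, f x = ∫ y in Ico (0 : ℝ) 1, ∫ x in Ico (0 : ℝ) 1, f (x, y) := by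
  have h1 : ∫ x in Q, f x = ∫ x in Q, f x.swap := by
    unfold Q
    rw [Measure.volume_eq_prod]
    exact (setIntegral_prod_swap (Ico (0 : ℝ) 1) (Ico (0 : ℝ) 1) f).symm
  rw [h1, int_Q]
  · rfl
  · unfold Q at hf ⊢
    rw [Measure.volume_eq_prod] at hf ⊢
    exact hf.swap

theorem shear1 {M : ℝ} {f : P → ℝ} (hf : Bd M f) {c : ℝ → ℝ} (hc : Measurable c) :
    ∫ x in Q, f (x.1 + c x.2, x.2) = ∫ x in Q, f x := by
  obtain ⟨h1, h2, h3⟩ := hf
  have hm : Measurable (fun x : P => f (x.1 + c x.2, x.2)) :=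
    h1.comp ((measurable_fst.add (hc.comp measurable_snd)).prodMk measurable_snd)
  rw [int_Q' (integrableOn_Q hm (fun x => h3 _)), int_Q' (integrableOn_Q h1 h3)]
  congr 1
  funext y
  exact shift_one (g := fun x => f (x, y)) (fun x => (h2 x y).1) (c y)

theorem shear2 {M : ℝ} {f : P → ℝ} (hf : Bd M f) {c : ℝ → ℝ} (hc : Measurable c) :
    ∫ x in Q, f (x.1, x.2 + c x.1) = ∫ x in Q, f x := by
  obtain ⟨h1, h2, h3⟩ := hf
  have hm : Measurable (fun x : P => f (x.1, x.2 + c x.1)) :=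
    h1.comp (measurable_fst.prodMk (measurable_snd.add (hc.comp measurable_fst)))
  rw [int_Q (integrableOn_Q hm (fun x => h3 _)), int_Q (integrableOn_Q h1 h3)]
  congr 1
  funext x
  exact shift_one (g := fun y => f (x, y)) (fun y => (h2 x y).2) (c x)

theorem measurable_pm : Measurable pm := measurable_from_top

theorem measurable_chi : Measurable chi := measurable_from_top

theorem chi_floor_add (j : ℕ) {x h : ℝ} {k : ℤ} (hk : 2 ^ j * h = 4 * (k : ℝ)) : chi ⌊2 ^ j * (x + h)⌋ = chi ⌊2 ^ j * x⌋ := by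
  have e : 2 ^ j * (x + h) = 2 ^ j * x + ((4 * k : ℤ) : ℝ) := by
    push_cast
    rw [mul_add, hk]
  rw [e, Int.floor_add_intCast, chi_add_four]

theorem four_dvd (j : ℕ) (hj : 2 ≤ j) : (2 : ℝ) ^ j * 1 = 4 * ((2 ^ (j - 2) : ℤ) : ℝ) := by
  obtain ⟨k, rfl⟩ := Nat.exists_eq_add_of_le hj
  rw [Nat.add_sub_cancel_left]
  push_cast
  ring

theorem pow_div (i j : ℕ) (h : i + 2 ≤ j) : (2 : ℝ) ^ j * (1 / ((2 ^ i : ℕ) : ℝ)) = 4 * ((2 ^ (j - i - 2) : ℤ) : ℝ) := by
  obtain ⟨k, rfl⟩ := Nat.exists_eq_add_of_le h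
  have e : i + 2 + k - i - 2 = k := by omega
  rw [e]
  push_cast
  have : (2 : ℝ) ^ i ≠ 0 := by positivity
  field_simp
  ring

theorem norm_fst_le (a : ℝ) : ‖((a, 0) : P)‖ = |a| := by
  rw [Prod.norm_def]
  simp

theorem norm_snd_le (a : ℝ) : ‖((0, a) : P)‖ = |a| := by
  rw [Prod.norm_def]
  simp

theorem abs_V_chi {V : ℝ} (hV : 0 ≤ V) (n : ℤ) : |V * chi n| ≤ V := by
  rcases chi_cases n with h | h <;> rw [h]
  · simpa using hV
  · rw [mul_one, abs_of_nonneg hV]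

theorem t_SH : S_SH := by
  intro j V hj hV
  have hm : Measurable (fun y : ℝ => V * chi ⌊2 ^ j * y⌋) :=
    (measurable_chi.comp (Int.measurable_floor.comp (measurable_const.mul measurable_id))).const_mul V
  refine ⟨⟨?_, ?_, ?_, ?_, ?_⟩, ⟨?_, ?_, ?_, ?_, ?_⟩, ?_⟩
  · exact (hm.comp measurable_snd).prodMk measurable_const
  · intro x y
    refine ⟨rfl, ?_⟩
    show ((V * chi ⌊2 ^ j * (y + 1)⌋, 0) : P) = (V * chi ⌊2 ^ j * y⌋, 0)
    rw [chi_floor_add j (four_dvd j hj)]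
  · intro x
    show ‖((V * chi ⌊2 ^ j * x.2⌋, 0) : P)‖ ≤ V
    rw [norm_fst_le]
    exact abs_V_chi hV _
  · intro s x
    show ((V * chi ⌊2 ^ j * (x.2 + s * 0)⌋, 0) : P) = (V * chi ⌊2 ^ j * x.2⌋, 0)
    rw [mul_zero, add_zero]
  · intro s M f hf
    have h1 := shear1 hf (c := fun y => s * (V * chi ⌊2 ^ j * y⌋)) (hm.const_mul s)
    rw [← h1]
    apply setIntegral_congr_fun measurableSet_Q
    intro x _
    show f (x + s • vh j V x) = f (x.1 + s * (V * chi ⌊2 ^ j * x.2⌋), x.2)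
    congr 1
    apply Prod.ext
    · rfl
    · show x.2 + s * 0 = x.2
      rw [mul_zero, add_zero]
  · exact measurable_const.prodMk (hm.comp measurable_fst)
  · intro x y
    refine ⟨?_, rfl⟩
    show ((0, V * chi ⌊2 ^ j * (x + 1)⌋) : P) = (0, V * chi ⌊2 ^ j * x⌋)
    rw [chi_floor_add j (four_dvd j hj)]
  · intro x
    show ‖((0, V * chi ⌊2 ^ j * x.1⌋) : P)‖ ≤ V
    rw [norm_snd_le]
    exact abs_V_chi hV _
  · intro s x
    show ((0, V * chi ⌊2 ^ j * (x.1 + s * 0)⌋) : P) = (0, V * chi ⌊2 ^ j * x.1⌋)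
    rw [mul_zero, add_zero]
  · intro s M f hf
    have h1 := shear2 hf (c := fun y => s * (V * chi ⌊2 ^ j * y⌋)) (hm.const_mul s)
    rw [← h1]
    apply setIntegral_congr_fun measurableSet_Q
    intro x _
    show f (x + s • vv j V x) = f (x.1, x.2 + s * (V * chi ⌊2 ^ j * x.1⌋))
    congr 1
    apply Prod.ext
    · show x.1 + s * 0 = x.1
      rw [mul_zero, add_zero]
    · rfl
  · intro i hi
    refine ⟨fun x y => ⟨rfl, ?_⟩, fun x y => ⟨?_, rfl⟩⟩
    · show ((V * chi ⌊2 ^ j * (y + 1 / ((2 ^ i : ℕ) : ℝ))⌋, 0) : P) = (V * chi ⌊2 ^ j * y⌋, 0)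
      rw [chi_floor_add j (pow_div i j hi)]
    · show ((0, V * chi ⌊2 ^ j * (x + 1 / ((2 ^ i : ℕ) : ℝ))⌋) : P) = (0, V * chi ⌊2 ^ j * x⌋)
      rw [chi_floor_add j (pow_div i j hi)]

end Pool.Agent.Q222.AD
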