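import Pool.Agent.Q61.AD.Stm

/-!
Project AD (helper61), helper222: AD-33 (`S_WL`).
-/

set_option autoImplicit false

namespace Pool.Agent.Q222.AD

open MeasureTheory Set Filter Topology
open Pool.Agent.Q61.AD

theorem weak_L2 {α : Type} [MeasurableSpace α] (μ : Measure α) [IsFiniteMeasure μ] {M : ℝ} (w : ℕ → α → ℝ) (hw : ∀ n, Measurable (w n))
    (hM : ∀ n x, |w n x| ≤ M) (𝒰 : Ultrafilter ℕ) :
    ∃ u : Lp ℝ 2 μ, ∀ ψ : α → ℝ, MemLp ψ 2 μ → Tendsto (fun n => ∫ x, w n x * ψ x ∂μ) 𝒰 (𝓝 (∫ x, u x * ψ x ∂μ)) := by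
  have hmem : ∀ n, MemLp (w n) 2 μ := fun n =>
    MemLp.of_bound (hw n).aestronglyMeasurable M (Eventually.of_forall (fun x => by rw [Real.norm_eq_abs]; exact hM n x))
  obtain ⟨R, hR⟩ : ∃ R : ℝ, R = (μ Set.univ ^ (2 : ENNReal).toReal⁻¹ * ENNReal.ofReal M).toReal := ⟨_, rfl⟩
  have hfin : μ Set.univ ^ (2 : ENNReal).toReal⁻¹ * ENNReal.ofReal M ≠ ⊤ :=
    ENNReal.mul_ne_top (ENNReal.rpow_ne_top_of_nonneg (by positivity) (measure_ne_top _ _)) ENNReal.ofReal_ne_top
  have hWn : ∀ n, ‖(hmem n).toLp (w n)‖ ≤ R := by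
    intro n
    rw [Lp.norm_toLp, hR]
    apply ENNReal.toReal_mono hfin
    exact eLpNorm_le_of_ae_bound (Eventually.of_forall (fun x => by rw [Real.norm_eq_abs]; exact hM n x))
  obtain ⟨D, hD⟩ : ∃ D : ℕ → WeakDual ℝ (Lp ℝ 2 μ), D = fun n => StrongDual.toWeakDual (InnerProductSpace.toDual ℝ (Lp ℝ 2 μ) ((hmem n).toLp (w n))) := ⟨_, rfl⟩
  have hK := WeakDual.isCompact_closedBall (𝕜 := ℝ) (E := Lp ℝ 2 μ) 0 R
  have hDK : ∀ n, D n ∈ WeakDual.toStrongDual ⁻¹' Metric.closedBall (0 : StrongDual ℝ (Lp ℝ 2 μ)) R := by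
    intro n
    rw [hD, Set.mem_preimage, mem_closedBall_zero_iff]
    show ‖InnerProductSpace.toDual ℝ (Lp ℝ 2 μ) ((hmem n).toLp (w n))‖ ≤ R
    rw [LinearIsometryEquiv.norm_map]
    exact hWn n
  obtain ⟨φ, _, hφ⟩ := hK.ultrafilter_le_nhds (𝒰.map D) (by
    rw [le_principal_iff, Ultrafilter.coe_map, Filter.mem_map]
    exact Filter.univ_mem' hDK)
  refine ⟨(InnerProductSpace.toDual ℝ (Lp ℝ 2 μ)).symm (WeakDual.toStrongDual φ), ?_⟩
  intro ψ hψ
  have h1 : Tendsto (fun n => D n (hψ.toLp ψ)) 𝒰 (𝓝 (φ (hψ.toLp ψ))) :=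
    ((WeakDual.eval_continuous (𝕜 := ℝ) (hψ.toLp ψ)).tendsto φ).comp hφ
  have h2 : ∀ n, D n (hψ.toLp ψ) = ∫ x, w n x * ψ x ∂μ := by
    intro n
    rw [hD]
    show InnerProductSpace.toDual ℝ (Lp ℝ 2 μ) ((hmem n).toLp (w n)) (hψ.toLp ψ) = _
    rw [InnerProductSpace.toDual_apply_apply, L2.inner_def]
    apply integral_congr_ae
    filter_upwards [(hmem n).coeFn_toLp, hψ.coeFn_toLp] with x h3 h4
    rw [h3, h4]
    simp [mul_comm]
  have h3 : φ (hψ.toLp ψ) = ∫ x, ((InnerProductSpace.toDual ℝ (Lp ℝ 2 μ)).symm (WeakDual.toStrongDual φ) : Lp ℝ 2 μ) x * ψ x ∂μ := by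
    have h4 : φ (hψ.toLp ψ) = (WeakDual.toStrongDual φ) (hψ.toLp ψ) := rfl
    rw [h4, ← InnerProductSpace.toDual_symm_apply, L2.inner_def]
    apply integral_congr_ae
    filter_upwards [hψ.coeFn_toLp] with x h5
    rw [h5]
    simp [mul_comm]
  simp only [h2] at h1
  rw [h3] at h1
  exact h1

theorem t_WL : S_WL := by
  intro α _ μ _ M w hw hM
  obtain ⟨𝒰, h𝒰⟩ : ∃ 𝒰 : Ultrafilter ℕ, (𝒰 : Filter ℕ) ≤ atTop := ⟨Filter.hyperfilter ℕ, Nat.hyperfilter_le_atTop⟩
  obtain ⟨u, hu⟩ := weak_L2 μ w hw hM 𝒰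
  have hui : Integrable u μ := (Lp.memLp u).integrable one_le_two
  have hwi : ∀ n, Integrable (w n) μ := fun n =>
    Integrable.of_bound (hw n).aestronglyMeasurable M (Eventually.of_forall (fun x => by rw [Real.norm_eq_abs]; exact hM n x))
  have hset : ∀ s, MeasurableSet s → Tendsto (fun n => ∫ x in s, w n x ∂μ) 𝒰 (𝓝 (∫ x in s, u x ∂μ)) := by
    intro s hs
    have h1 := hu (s.indicator (fun _ => (1 : ℝ))) ((memLp_const (1 : ℝ)).indicator hs)
    have e : ∀ f : α → ℝ, ∫ x, f x * s.indicator (fun _ => (1 : ℝ)) x ∂μ = ∫ x in s, f x ∂μ := by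
      intro f
      rw [← integral_indicator hs]
      congr 1
      funext x
      by_cases hx : x ∈ s
      · rw [indicator_of_mem hx, indicator_of_mem hx, mul_one]
      · rw [indicator_of_notMem hx, indicator_of_notMem hx, mul_zero]
    simp only [e] at h1
    exact h1
  have hup : u ≤ᵐ[μ] fun _ => M := by
    apply ae_le_of_forall_setIntegral_le hui (integrable_const M)
    intro s hs _
    apply le_of_tendsto (hset s hs)
    apply Eventually.of_forall
    intro n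
    apply setIntegral_mono_on (hwi n).integrableOn (integrable_const M).integrableOn hs
    intro x _
    exact (abs_le.1 (hM n x)).2
  have hlo : (fun _ => -M) ≤ᵐ[μ] u := by
    apply ae_le_of_forall_setIntegral_le (integrable_const (-M)) hui
    intro s hs _
    apply ge_of_tendsto (hset s hs)
    apply Eventually.of_forall
    intro n
    apply setIntegral_mono_on (integrable_const (-M)).integrableOn (hwi n).integrableOn hs
    intro x _
    exact (abs_le.1 (hM n x)).1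
  obtain ⟨v, hv⟩ : ∃ v : α → ℝ, v = fun x => max (-M) (min (u x) M) := ⟨_, rfl⟩
  have hum : Measurable u := (Lp.stronglyMeasurable u).measurable
  have hvm : Measurable v := by
    rw [hv]
    exact measurable_const.max (hum.min measurable_const)
  have hvb : ∀ x, |v x| ≤ M := by
    intro x
    have hM0 : 0 ≤ M := (abs_nonneg _).trans (hM 0 x)
    rw [hv, abs_le]
    exact ⟨le_max_left _ _, max_le (by linarith) (min_le_right _ _)⟩
  have huv : u =ᵐ[μ] v := by
    filter_upwards [hup, hlo] with x h1 h2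
    rw [hv]
    show u x = max (-M) (min (u x) M)
    rw [min_eq_left h1, max_eq_right h2]
  refine ⟨𝒰, v, h𝒰, hvm, hvb, ?_⟩
  intro ψ hψ
  have hM0' : 0 ≤ |M| := abs_nonneg _
  have hMM : M ≤ |M| := le_abs_self _
  rw [Metric.tendsto_nhds]
  intro ε hε
  obtain ⟨g, hg1, hg2⟩ := (memLp_one_iff_integrable.2 hψ).exists_simpleFunc_eLpNorm_sub_lt (ε := ENNReal.ofReal (ε / (4 * (|M| + 1)))) ENNReal.one_ne_top (by
    rw [Ne, ENNReal.ofReal_eq_zero, not_le]
    positivity)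
  have hgi : Integrable g μ := memLp_one_iff_integrable.1 hg2
  have hsub : Integrable (fun x => ψ x - g x) μ := hψ.sub hgi
  have hg3 : ∫ x, |ψ x - g x| ∂μ < ε / (4 * (|M| + 1)) := by
    have h1 : eLpNorm (ψ - ⇑g) 1 μ = ENNReal.ofReal (∫ x, ‖ψ x - g x‖ ∂μ) := by
      rw [eLpNorm_one_eq_lintegral_enorm, ofReal_integral_norm_eq_lintegral_enorm hsub]
      rfl
    rw [h1] at hg1
    have h2 := (ENNReal.ofReal_lt_ofReal_iff (by positivity)).1 hg1
    simpa only [Real.norm_eq_abs] using h2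
  have hdiff : ∀ f : α → ℝ, Measurable f → (∀ x, |f x| ≤ M) → |(∫ x, f x * ψ x ∂μ) - ∫ x, f x * g x ∂μ| ≤ ε / 4 := by
    intro f hf hfM
    have hi1 : Integrable (fun x => f x * ψ x) μ := hψ.bdd_mul hf.aestronglyMeasurable (Eventually.of_forall (fun x => by rw [Real.norm_eq_abs]; exact hfM x))
    have hi2 : Integrable (fun x => f x * g x) μ := hgi.bdd_mul hf.aestronglyMeasurable (Eventually.of_forall (fun x => by rw [Real.norm_eq_abs]; exact hfM x))
    rw [← integral_sub hi1 hi2]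
    calc |∫ x, (f x * ψ x - f x * g x) ∂μ| ≤ ∫ x, |f x * ψ x - f x * g x| ∂μ := abs_integral_le_integral_abs
      _ ≤ ∫ x, |M| * |ψ x - g x| ∂μ := by
        apply integral_mono (hi1.sub hi2).abs (hsub.abs.const_mul _)
        intro x
        show |f x * ψ x - f x * g x| ≤ |M| * |ψ x - g x|
        rw [← mul_sub, abs_mul]
        exact mul_le_mul_of_nonneg_right ((hfM x).trans hMM) (abs_nonneg _)
      _ = |M| * ∫ x, |ψ x - g x| ∂μ := integral_const_mul _ _
      _ ≤ |M| * (ε / (4 * (|M| + 1))) := mul_le_mul_of_nonneg_left hg3.le hM0'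
      _ ≤ ε / 4 := by
        rw [mul_div_assoc', div_le_div_iff₀ (by positivity) (by norm_num)]
        nlinarith
  have hgl : Tendsto (fun n => ∫ x, w n x * g x ∂μ) 𝒰 (𝓝 (∫ x, v x * g x ∂μ)) := by
    have h1 := hu g (SimpleFunc.memLp_of_isFiniteMeasure g 2 μ)
    have h2 : ∫ x, u x * g x ∂μ = ∫ x, v x * g x ∂μ := by
      apply integral_congr_ae
      filter_upwards [huv] with x hx
      rw [hx]
    rwa [h2] at h1
  rw [Metric.tendsto_nhds] at hgl
  filter_upwards [hgl (ε / 4) (by positivity)] with n hn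
  have h1 := hdiff (w n) (hw n) (hM n)
  have h2 := hdiff v hvm hvb
  rw [Real.dist_eq] at hn ⊢
  rw [abs_lt] at hn ⊢
  rw [abs_le] at h1 h2
  constructor <;> linarith [h1.1, h1.2, h2.1, h2.2, hn.1, hn.2]

end Pool.Agent.Q222.AD
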